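import Pool.Agent.K4H62.EL.Weier
import Pool.Agent.W856.RG.ORB
import Pool.Agent.W603.PV.Ext

/-!
The affine coordinate ring of a cubic curve.
-/

set_option autoImplicit false
set_option linter.overlappingInstances false
set_option linter.unusedSectionVars false
set_option maxHeartbeats 4000000
set_option synthInstance.maxHeartbeats 400000

open FF IntermediateField

namespace Pool.Agent.K4H62.EL

open Pool.Agent.W603.LV Pool.Agent.W619.PQ Pool.Agent.K4H62.IT

section

variable {R A : Type*} [CommRing R] [CommRing A] [Algebra R A]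

/-- the substitution in two variables -/
noncomputable def bi (x y : A) : Polynomial (Polynomial R) →ₐ[R] A :=
  { Polynomial.eval₂RingHom (Polynomial.aeval x : Polynomial R →ₐ[R] A).toRingHom y with
    commutes' := fun r => by
      have h : algebraMap R (Polynomial (Polynomial R)) r = Polynomial.C (Polynomial.C r) := rfl
      rw [h]
      change Polynomial.eval₂ _ _ _ = _
      rw [Polynomial.eval₂_C]
      change Polynomial.aeval x (Polynomial.C r) = _
      rw [Polynomial.aeval_C] }

theorem bi_C (x y : A) (p : Polynomial R) : bi x y (Polynomial.C p) = Polynomial.aeval x p := by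
  change Polynomial.eval₂ _ _ _ = _
  rw [Polynomial.eval₂_C]
  rfl

theorem bi_X (x y : A) : bi (R := R) x y Polynomial.X = y := by
  change Polynomial.eval₂ _ _ _ = _
  rw [Polynomial.eval₂_X]

/-- the equation of the curve -/
noncomputable def wp (a b : R) : Polynomial (Polynomial R) :=
  Polynomial.X ^ 2 - Polynomial.C (Polynomial.X ^ 3 + Polynomial.C a * Polynomial.X +
    Polynomial.C b)

theorem wp_monic (a b : R) : (wp a b).Monic := by
  unfold wp
  exact Polynomial.monic_X_pow_sub_C _ two_ne_zero

theorem wp_map {S : Type*} [CommRing S] (f : R →+* S) (a b : R) :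
    (wp a b).map (Polynomial.mapRingHom f) = wp (f a) (f b) := by
  unfold wp
  simp

theorem bi_wp {x y : A} {a b : R} (h : y ^ 2 = x ^ 3 + algebraMap R A a * x + algebraMap R A b) :
    bi x y (wp a b) = 0 := by
  unfold wp
  rw [map_sub, map_pow, bi_X, bi_C]
  simp only [map_add, map_mul, map_pow, Polynomial.aeval_X, Polynomial.aeval_C]
  rw [h, sub_self]

theorem natDegree_wp [Nontrivial R] (a b : R) : (wp a b).natDegree = 2 := by
  unfold wp
  exact Polynomial.natDegree_X_pow_sub_C

/-- the remainder -/
theorem mod_form [Nontrivial R] (a b : R) (p : Polynomial (Polynomial R)) :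
    p %ₘ wp a b = Polynomial.C ((p %ₘ wp a b).coeff 1) * Polynomial.X +
      Polynomial.C ((p %ₘ wp a b).coeff 0) := by
  apply Polynomial.eq_X_add_C_of_natDegree_le_one
  have h1 := Polynomial.natDegree_modByMonic_lt p (wp_monic a b) (fun h => by
    have h2 := natDegree_wp a b
    rw [h, Polynomial.natDegree_one] at h2
    omega)
  rw [natDegree_wp] at h1
  omega

theorem bi_mod [Nontrivial R] {x y : A} {a b : R}
    (h : y ^ 2 = x ^ 3 + algebraMap R A a * x + algebraMap R A b)
    (p : Polynomial (Polynomial R)) :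
    bi x y p = Polynomial.aeval x ((p %ₘ wp a b).coeff 1) * y +
      Polynomial.aeval x ((p %ₘ wp a b).coeff 0) := by
  conv_lhs => rw [← Polynomial.modByMonic_add_div p (wp a b), map_add, map_mul, bi_wp h,
    zero_mul, add_zero, mod_form, map_add, map_mul, bi_X, bi_C, bi_C]

end

section

variable {k F : Type*} [Field k] [Field F] [Algebra k F] [CharZero k] [IsFF k F] [IsAlgClosed k]

/-- `1` and `y` are independent over `k(x)` -/
theorem indep {P : Place k F} {x y : F} {m : ℕ} (hm : 0 < m) (hx : P.ord x = -(2 * (m : ℤ)))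
    (hy : P.ord y = -(3 * (m : ℤ))) {r0 r1 : Polynomial k}
    (h : Polynomial.aeval x r1 * y + Polynomial.aeval x r0 = 0) : r0 = 0 ∧ r1 = 0 := by
  have hneg : P.ord x < 0 := by omega
  have hy0 : y ≠ 0 := by
    rintro rfl
    rw [P.ord_zero] at hy
    omega
  by_cases h1 : r1 = 0
  · rw [h1, map_zero, zero_mul, zero_add] at h
    refine ⟨?_, h1⟩
    by_contra h0
    exact (ord_aeval_of_neg P hneg h0).1 h
  · exfalso
    obtain ⟨h2, h3⟩ := ord_aeval_of_neg P hneg h1
    by_cases h0 : r0 = 0
    · rw [h0, map_zero, add_zero] at h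
      exact mul_ne_zero h2 hy0 h
    · obtain ⟨h4, h5⟩ := ord_aeval_of_neg P hneg h0
      have h6 : P.ord (Polynomial.aeval x r1 * y) = P.ord (Polynomial.aeval x r0) := by
        rw [eq_neg_of_add_eq_zero_left h, P.ord_neg]
      rw [P.ord_mul h2 hy0, h3, h5, hx, hy] at h6
      have h7 : (m : ℤ) * (2 * r1.natDegree + 3) = (m : ℤ) * (2 * r0.natDegree) := by
        linear_combination -h6
      have h8 : (m : ℤ) ≠ 0 := by omega
      have h9 := mul_left_cancel₀ h8 h7
      omega

/-- the ideal of the curve -/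
theorem bi_eq_zero_iff {P : Place k F} {x y : F} {m : ℕ} (hm : 0 < m)
    (hx : P.ord x = -(2 * (m : ℤ))) (hy : P.ord y = -(3 * (m : ℤ))) {a b : k}
    (h : y ^ 2 = x ^ 3 + algebraMap k F a * x + algebraMap k F b)
    (p : Polynomial (Polynomial k)) : bi x y p = 0 ↔ p %ₘ wp a b = 0 := by
  constructor
  · intro h0
    rw [bi_mod h] at h0
    obtain ⟨h1, h2⟩ := indep hm hx hy h0
    rw [mod_form, h1, h2]
    simp
  · intro h0
    rw [bi_mod h, h0]
    simp

end

section

variable {k B G G' : Type*} [Field k] [CommRing B] [Field G] [Field G'] [Algebra k B] [Algebra k G]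
  [Algebra k G']

/-- a homomorphism of the fields of fractions -/
theorem exists_hom (f : B →ₐ[k] G) (g : B →ₐ[k] G') (hker : ∀ p, f p = 0 ↔ g p = 0)
    (hgen : ∀ z : G, ∃ p q : B, f q ≠ 0 ∧ z * f q = f p) :
    ∃ σ : G →ₐ[k] G', ∀ p, σ (f p) = g p := by
  choose P Q hQ hPQ using hgen
  have key : ∀ (z : G) (p q : B), f q ≠ 0 → z * f q = f p → g (P z) / g (Q z) = g p / g q := by
    intro z p q hq hpq
    have h1 : f (P z * q - p * Q z) = 0 := by
      rw [map_sub, map_mul, map_mul, ← hPQ, ← hpq]
      ring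
    have h2 := (hker _).1 h1
    rw [map_sub, map_mul, map_mul, sub_eq_zero] at h2
    have h3 : g q ≠ 0 := fun h => hq ((hker _).2 h)
    have h4 : g (Q z) ≠ 0 := fun h => hQ z ((hker _).2 h)
    rw [div_eq_div_iff h4 h3, h2]
  have hQg : ∀ z, g (Q z) ≠ 0 := fun z h => hQ z ((hker _).2 h)
  have hof : ∀ p, g (P (f p)) / g (Q (f p)) = g p := by
    intro p
    rw [key (f p) p 1 (by rw [map_one]; exact one_ne_zero) (by rw [map_one, mul_one]), map_one,
      div_one]
  refine ⟨{ toFun := fun z => g (P z) / g (Q z)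
            map_one' := ?_
            map_mul' := fun z w => ?_
            map_zero' := ?_
            map_add' := fun z w => ?_
            commutes' := fun c => ?_ }, hof⟩
  · have h1 := hof 1
    rwa [map_one, map_one] at h1
  · rw [key (z * w) (P z * P w) (Q z * Q w) (by rw [map_mul]; exact mul_ne_zero (hQ z) (hQ w))
      (by rw [map_mul, map_mul, ← hPQ, ← hPQ]; ring), map_mul, map_mul, mul_div_mul_comm]
  · have h1 := hof 0
    rwa [map_zero, map_zero] at h1
  · rw [key (z + w) (P z * Q w + P w * Q z) (Q z * Q w)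
      (by rw [map_mul]; exact mul_ne_zero (hQ z) (hQ w))
      (by rw [map_mul, map_add, map_mul, map_mul, ← hPQ, ← hPQ]; ring), map_mul, map_add, map_mul,
      map_mul, div_add_div _ _ (hQg z) (hQg w)]
    ring
  · change g (P (algebraMap k G c)) / g (Q (algebraMap k G c)) = algebraMap k G' c
    have h1 := hof (algebraMap k B c)
    rwa [f.commutes, g.commutes] at h1

/-- fractions -/
theorem exists_frac {x y : G} (hgen : IntermediateField.adjoin k {x, y} = ⊤) (z : G) :
    ∃ p q : Polynomial (Polynomial k), bi x y q ≠ 0 ∧ z * bi x y q = bi x y p := by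
  have hz : z ∈ IntermediateField.adjoin k {x, y} := by
    rw [hgen]
    trivial
  rw [IntermediateField.mem_adjoin_iff_div] at hz
  obtain ⟨r, hr, s, hs, hrs⟩ := hz
  have hle : Algebra.adjoin k {x, y} ≤ (bi (R := k) x y).range := by
    rw [Algebra.adjoin_le_iff]
    rintro w hw
    rcases hw with rfl | rfl
    · exact ⟨Polynomial.C Polynomial.X, by
        change bi w y _ = _
        rw [bi_C, Polynomial.aeval_X]⟩
    · exact ⟨Polynomial.X, bi_X x w⟩
  obtain ⟨p, hp⟩ := hle hr
  obtain ⟨q, hq⟩ := hle hs
  change bi x y p = r at hp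
  change bi x y q = s at hq
  by_cases hs0 : s = 0
  · refine ⟨0, 1, by rw [map_one]; exact one_ne_zero, ?_⟩
    rw [hrs, hs0, div_zero, zero_mul, map_zero]
  · refine ⟨p, q, by rw [hq]; exact hs0, ?_⟩
    rw [hp, hq, hrs, div_mul_cancel₀ _ hs0]

end

end Pool.Agent.K4H62.EL
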