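import Pool.Agent.K4H62.EL.Double

/-!
Cubic curves: the basis `1, x, y, x ^ 2, x y, ...` of the affine coordinate ring.
-/

set_option autoImplicit false
set_option linter.overlappingInstances false
set_option linter.unusedSectionVars false
set_option maxHeartbeats 4000000
set_option synthInstance.maxHeartbeats 400000

open FF IntermediateField

namespace Pool.Agent.K4H62.EL

open Pool.Agent.W603.LV Pool.Agent.W619.PQ Pool.Agent.K4H62.IT

/-- the monomial of pole order `n`, for `n ≠ 1` -/
noncomputable def eb (R : Type*) [CommRing R] (n : ℕ) : Polynomial (Polynomial R) :=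
  if n % 2 = 0 then Polynomial.C (Polynomial.X ^ (n / 2))
  else if n = 1 then 0 else Polynomial.C (Polynomial.X ^ ((n - 3) / 2)) * Polynomial.X

theorem eb_map {R S : Type*} [CommRing R] [CommRing S] (f : R →+* S) (n : ℕ) :
    (eb R n).map (Polynomial.mapRingHom f) = eb S n := by
  unfold eb
  split_ifs <;> simp

section

variable {k F : Type*} [Field k] [Field F] [Algebra k F]

/-- the functions -/
noncomputable def ef (k : Type*) [Field k] {F : Type*} [Field F] [Algebra k F] (x y : F)
    (n : ℕ) : F := bi (R := k) x y (eb k n)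

theorem ef_one (x y : F) : ef k x y 1 = 0 := by
  unfold ef eb
  rw [if_neg (by norm_num), if_pos rfl, map_zero]

theorem ef_zero (x y : F) : ef k x y 0 = 1 := by
  unfold ef eb
  rw [if_pos (by norm_num), bi_C]
  simp

theorem ef_ord {P : Place k F} {x y : F} (hx : P.ord x = -2) (hy : P.ord y = -3) {n : ℕ}
    (hn : n ≠ 1) : ef k x y n ≠ 0 ∧ P.ord (ef k x y n) = -(n : ℤ) := by
  have hx0 : x ≠ 0 := by
    rintro rfl
    rw [P.ord_zero] at hx
    omega
  have hy0 : y ≠ 0 := by
    rintro rfl
    rw [P.ord_zero] at hy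
    omega
  unfold ef eb
  by_cases h : n % 2 = 0
  · rw [if_pos h, bi_C, map_pow, Polynomial.aeval_X, P.ord_pow, hx]
    refine ⟨pow_ne_zero _ hx0, ?_⟩
    omega
  · rw [if_neg h, if_neg hn, map_mul, bi_C, bi_X, map_pow, Polynomial.aeval_X,
      P.ord_mul (pow_ne_zero _ hx0) hy0, P.ord_pow, hx, hy]
    refine ⟨mul_ne_zero (pow_ne_zero _ hx0) hy0, ?_⟩
    omega

theorem ef_reg {Q : Place k F} {a b : k} {X Y : F} (hW : Weier Q a b X Y) (n : ℕ) :
    AtMost Q n (ef k X Y n) := by
  by_cases hn : n = 1
  · subst hn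
    rw [ef_one]
    exact ⟨Or.inl rfl, fun P _ => Or.inl rfl⟩
  refine ⟨Or.inr (ef_ord hW.ordX hW.ordY hn).2.ge, fun P hP => ?_⟩
  have hX : Ge P 0 X := Or.inr (hW.regX P hP)
  have hY : Ge P 0 Y := Or.inr (hW.regY P hP)
  unfold ef eb
  by_cases h : n % 2 = 0
  · rw [if_pos h, bi_C, map_pow, Polynomial.aeval_X]
    exact (hX.pow _).mono (by simp)
  · rw [if_neg h, if_neg hn, map_mul, bi_C, bi_X, map_pow, Polynomial.aeval_X]
    exact ((hX.pow _).mul hY).mono (by simp)

/-- the values of polynomials have no poles outside of `Q` -/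
theorem bi_reg {Q : Place k F} {a b : k} {X Y : F} (hW : Weier Q a b X Y)
    (p : Polynomial (Polynomial k)) (P : Place k F) (hP : P ≠ Q) : Ge P 0 (bi X Y p) := by
  have hX : Ge P 0 X := Or.inr (hW.regX P hP)
  have hY : Ge P 0 Y := Or.inr (hW.regY P hP)
  have hq : ∀ q : Polynomial k, Ge P 0 (Polynomial.aeval X q) := by
    intro q
    rw [Polynomial.aeval_eq_sum_range]
    refine Ge.sum _ _ fun d _ => ?_
    rw [Algebra.smul_def]
    exact ((Ge.const (P := P) (q.coeff d)).mul (hX.pow d)).mono (by simp)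
  rw [Polynomial.as_sum_range p, map_sum]
  refine Ge.sum _ _ fun d _ => ?_
  rw [← Polynomial.C_mul_X_pow_eq_monomial, map_mul, map_pow, bi_C, bi_X]
  exact ((hq _).mul (hY.pow d)).mono (by simp)

/-- linear combinations -/
theorem ge_comb {P : Place k F} {x y : F} (hx : P.ord x = -2) (hy : P.ord y = -3) {N : ℕ}
    (c : Fin N → k) : Ge P (1 - (N : ℤ)) (∑ n : Fin N, algebraMap k F (c n) * ef k x y n) := by
  refine Ge.sum _ _ fun n _ => ?_
  by_cases hn : (n : ℕ) = 1
  · left
    rw [hn, ef_one, mul_zero]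
  · have h1 : Ge P (-(n : ℤ)) (ef k x y n) := Or.inr (ef_ord hx hy hn).2.ge
    have h2 := (Ge.const (P := P) (c n)).mul h1
    have h3 := n.2
    exact h2.mono (by omega)

/-- the functions are linearly independent -/
theorem comb_zero {P : Place k F} {x y : F} (hx : P.ord x = -2) (hy : P.ord y = -3) :
    ∀ {N : ℕ} (c : Fin N → k), (∀ n : Fin N, (n : ℕ) = 1 → c n = 0) →
      ∑ n : Fin N, algebraMap k F (c n) * ef k x y n = 0 → ∀ n, c n = 0
  | 0, c, _, _, n => n.elim0
  | N + 1, c, h1, h0, n => by
    rw [Fin.sum_univ_castSucc] at h0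
    have hN : c (Fin.last N) = 0 := by
      by_contra hc
      by_cases hN1 : N = 1
      · exact hc (h1 _ (by simpa using hN1))
      · obtain ⟨h2, h3⟩ := ef_ord (k := k) hx hy hN1
        have h4 := ge_comb (k := k) hx hy (fun n : Fin N => c n.castSucc)
        have h5 : ∑ n : Fin N, algebraMap k F (c n.castSucc) * ef k x y n =
            -(algebraMap k F (c (Fin.last N)) * ef k x y N) := by
          have h6 : ∑ n : Fin N, algebraMap k F (c n.castSucc) * ef k x y (n.castSucc : Fin _) +
            algebraMap k F (c (Fin.last N)) * ef k x y (Fin.last N : Fin _) = 0 := h0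
          have h7 := eq_neg_of_add_eq_zero_left h6
          exact h7
        rw [h5] at h4
        have h8 : algebraMap k F (c (Fin.last N)) ≠ 0 := (_root_.map_ne_zero _).2 hc
        have h9 := h4.resolve_left (neg_ne_zero.2 (mul_ne_zero h8 h2))
        rw [P.ord_neg, P.ord_mul h8 h2, P.ord_const hc, h3] at h9
        omega
    have h2 := comb_zero hx hy (N := N) (fun n : Fin N => c n.castSucc)
      (fun n hn => h1 _ (by simpa using hn)) (by
        rw [hN, map_zero, zero_mul, add_zero] at h0
        exact h0)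
    refine Fin.lastCases hN (fun n => ?_) n
    exact h2 n

end

section

variable {k F : Type*} [Field k] [Field F] [Algebra k F] [CharZero k] [IsFF k F] [IsAlgClosed k]

/-- functions with one pole are linear combinations -/
theorem exists_comb {Q : Place k F} {a b : k} {X Y : F} (hW : Weier Q a b X Y)
    (hrat : ¬ ∃ s : F, k⟮s⟯ = ⊤) : ∀ (N : ℕ) (g : F), AtMost Q N g →
      ∃ c : Fin (N + 1) → k, (∀ n : Fin (N + 1), (n : ℕ) = 1 → c n = 0) ∧
        g = ∑ n : Fin (N + 1), algebraMap k F (c n) * ef k X Y n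
  | 0, g, hg => by
    obtain ⟨c, hc⟩ := AtMost.eq_const (hg.mono (by norm_num)) hrat
    refine ⟨fun _ => c, fun n hn => ?_, ?_⟩
    · have := n.2
      omega
    · rw [Fin.sum_univ_one, hc]
      change _ = algebraMap k F c * ef k X Y 0
      rw [ef_zero, mul_one]
  | N + 1, g, hg => by
    by_cases hN : N = 0
    · subst hN
      obtain ⟨c, hc⟩ := AtMost.eq_const (hg.mono (by norm_num)) hrat
      refine ⟨fun n => if (n : ℕ) = 1 then 0 else c, fun n hn => if_pos hn, ?_⟩
      rw [Fin.sum_univ_two, hc]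
      change _ = algebraMap k F (if (0 : ℕ) = 1 then 0 else c) * ef k X Y 0 +
        algebraMap k F (if (1 : ℕ) = 1 then 0 else c) * ef k X Y 1
      rw [if_neg (by norm_num), if_pos rfl, ef_zero, map_zero, zero_mul, add_zero, mul_one]
    · have hN1 : N + 1 ≠ 1 := by omega
      obtain ⟨h1, h2⟩ := ef_ord (k := k) hW.ordX hW.ordY hN1
      obtain ⟨c0, hc0⟩ := AtMost.step hg (ef_reg hW (N + 1)) h1 (by rw [h2])
      obtain ⟨c, hc1, hc⟩ := exists_comb hW hrat N _ (hc0.mono (by push_cast; omega))
      refine ⟨Fin.snoc (α := fun _ => k) c c0, fun n => ?_, ?_⟩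
      · refine Fin.lastCases (fun h => ?_) (fun n h => ?_) n
        · exfalso
          rw [Fin.val_last] at h
          omega
        · rw [Fin.snoc_castSucc]
          exact hc1 n (by simpa using h)
      · rw [Fin.sum_univ_castSucc]
        simp only [Fin.snoc_castSucc, Fin.snoc_last, Fin.val_castSucc, Fin.val_last]
        rw [← hc]
        ring

end

end Pool.Agent.K4H62.EL
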