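import Pool.Agent.K4H62.EL.Model

/-!
Cubic curves: the multiplication by `-2`.
-/

set_option autoImplicit false
set_option linter.overlappingInstances false
set_option linter.unusedSectionVars false
set_option maxHeartbeats 4000000
set_option synthInstance.maxHeartbeats 400000

open FF IntermediateField

namespace Pool.Agent.K4H62.EL

open Pool.Agent.W603.LV Pool.Agent.W619.PQ Pool.Agent.K4H62.IT
open Pool.Agent.W603.PV (hgt_eq_finrank hgt_algebraMap)

variable {k G : Type} [Field k] [Field G] [Algebra k G] [CharZero k] [IsFF k G] [IsAlgClosed k]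

/-- a constant with a zero -/
theorem const_zero {P : Place k G} {c : k} (h : Ge P 1 (algebraMap k G c)) : c = 0 := by
  by_contra hc
  have h1 := h.resolve_left ((_root_.map_ne_zero _).2 hc)
  rw [P.ord_const hc] at h1
  omega

/-- values of polynomials -/
theorem ge_aeval {P : Place k G} {x : G} {e : k} (h : Ge P 1 (x - algebraMap k G e))
    (p : Polynomial k) : Ge P 1 (Polynomial.aeval x p - algebraMap k G (p.eval e)) := by
  have h1 : Polynomial.X - Polynomial.C e ∣ p - Polynomial.C (p.eval e) := by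
    rw [Polynomial.dvd_iff_isRoot]
    simp
  obtain ⟨q, hq⟩ := h1
  have h2 : Polynomial.aeval x p - algebraMap k G (p.eval e) =
      (x - algebraMap k G e) * Polynomial.aeval x q := by
    have h3 := congrArg (Polynomial.aeval x) hq
    rw [map_sub, map_mul, map_sub, Polynomial.aeval_C, Polynomial.aeval_X, Polynomial.aeval_C] at h3
    exact h3
  rw [h2]
  have hx : Ge P 0 x := by
    have h3 := (h.mono (by omega : (0 : ℤ) ≤ 1)).add (Ge.const (P := P) e)
    rwa [sub_add_cancel] at h3
  have h4 : Ge P 0 (Polynomial.aeval x q) := by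
    rw [Polynomial.aeval_eq_sum_range]
    refine Ge.sum _ _ fun d _ => ?_
    rw [Algebra.smul_def]
    exact ((Ge.const (P := P) (q.coeff d)).mul (hx.pow d)).mono (by simp)
  exact (h.mul h4).mono (by omega)

/-- **Multiplication by `-2`** on a cubic curve: an endomorphism of the function field which preserves
the place at infinity and multiplies the degrees by a number which is greater than one. -/
theorem exists_double {O : Place k G} {a b : k} {X Y : G} (hW : Weier O a b X Y) :
    ∃ σ : G →ₐ[k] G, (∀ g, O.ord (σ g) = O.ord g) ∧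
      ∃ d : ℕ, 2 ≤ d ∧ ∀ g : G, hgt k (σ g) = d * hgt k g := by
  classical
  have hG0 : CharZero G := charZero_of_injective_algebraMap (algebraMap k G).injective
  have hXO := hW.ordX
  have hYO := hW.ordY
  have hX0 : X ≠ 0 := by
    rintro rfl
    rw [O.ord_zero] at hXO
    omega
  have hY0 : Y ≠ 0 := by
    rintro rfl
    rw [O.ord_zero] at hYO
    omega
  have hXneg : O.ord X < 0 := by omega
  have hE := hW.eqn
  obtain ⟨l, hl⟩ : ∃ l : G, l = (3 * X ^ 2 + algebraMap k G a) / (2 * Y) := ⟨_, rfl⟩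
  have h2Y : 2 * Y ≠ 0 := mul_ne_zero two_ne_zero hY0
  have h2 : 2 * Y * l = 3 * X ^ 2 + algebraMap k G a := by
    rw [hl]
    field_simp
  obtain ⟨X2, hX2⟩ : ∃ X2 : G, X2 = l ^ 2 - 2 * X := ⟨_, rfl⟩
  obtain ⟨Y2, hY2⟩ : ∃ Y2 : G, Y2 = l * (l ^ 2 - 3 * X) + Y := ⟨_, rfl⟩
  have hE2 : Y2 ^ 2 = X2 ^ 3 + algebraMap k G a * X2 + algebraMap k G b := by
    rw [hX2, hY2]
    exact tangent h2 hE
  -- the numerator
  obtain ⟨p, hp⟩ : ∃ p : Polynomial k, p = Polynomial.X ^ 4 - Polynomial.C (2 * a) *
    Polynomial.X ^ 2 - Polynomial.C (8 * b) * Polynomial.X + Polynomial.C (a ^ 2) := ⟨_, rfl⟩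
  have hpX : Polynomial.aeval X p = X2 * (4 * Y ^ 2) := by
    have h3 : Polynomial.aeval X p = X ^ 4 - 2 * algebraMap k G a * X ^ 2 -
        8 * algebraMap k G b * X + algebraMap k G a ^ 2 := by
      rw [hp]
      simp only [map_add, map_sub, map_mul, map_pow, Polynomial.aeval_X, Polynomial.aeval_C,
        map_ofNat]
    rw [h3, hX2]
    linear_combination (-(2 * Y * l) - (3 * X ^ 2 + algebraMap k G a)) * h2 + 8 * X * hE
  have hdeg : p.natDegree = 4 := by
    rw [hp]
    compute_degree!
  have hp0 : p ≠ 0 := by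
    intro h0
    rw [h0, Polynomial.natDegree_zero] at hdeg
    omega
  obtain ⟨hp1, hp2⟩ := ord_aeval_of_neg O hXneg hp0
  rw [hpX] at hp1 hp2
  have hX20 : X2 ≠ 0 := left_ne_zero_of_mul hp1
  have h4Y : (4 : G) * Y ^ 2 ≠ 0 := right_ne_zero_of_mul hp1
  have h4 : ∀ P : Place k G, P.ord (4 * Y ^ 2) = 2 * P.ord Y := by
    intro P
    have h5 : (4 : G) = algebraMap k G 4 := by rw [map_ofNat]
    have h6 : (4 : k) ≠ 0 := by norm_num
    rw [P.ord_mul (by rw [h5]; exact (_root_.map_ne_zero _).2 h6) (pow_ne_zero _ hY0), h5,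
      P.ord_const h6, P.ord_pow, zero_add]
    rfl
  have hX2O : O.ord X2 = -2 := by
    rw [O.ord_mul hX20 h4Y, h4, hdeg, hXO, hYO] at hp2
    push_cast at hp2
    omega
  have hY2O : O.ord Y2 = -3 := by
    have := ord_eqn hE2 (P := O) (by omega)
    omega
  -- the endomorphism
  obtain ⟨σ, hσ⟩ := exists_hom (bi (R := k) X Y) (bi (R := k) X2 Y2) (fun q => by
    rw [bi_eq_zero_iff (P := O) (m := 1) one_pos (by rw [hXO]; rfl) (by rw [hYO]; rfl) hE,
      bi_eq_zero_iff (P := O) (m := 1) one_pos (by rw [hX2O]; rfl) (by rw [hY2O]; rfl) hE2])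
    (exists_frac hW.gen)
  have hσX : σ X = X2 := by
    have h5 := hσ (Polynomial.C Polynomial.X)
    rwa [bi_C, bi_C, Polynomial.aeval_X, Polynomial.aeval_X] at h5
  obtain ⟨e, he, hee⟩ := restrict_self σ (O := O) (x := X) hW.regX (by rw [hσX]; omega)
  have he1 : e = 1 := by
    have h5 := hee X
    rw [hσX, hX2O, hXO] at h5
    omega
  obtain ⟨d, hd⟩ := hgt_self σ
  refine ⟨σ, fun g => by rw [hee g, he1]; simp, d, ?_, hd⟩
  -- another pole of `X2`
  have hYt : Transcendental k Y := O.transcendental_of_ord_ne (by omega)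
  obtain ⟨P, hP⟩ := Pool.Agent.W856.RG.Orb.exists_zero (k := k) hYt
  have hPO : P ≠ O := by
    rintro rfl
    omega
  have hXP : Ge P 0 X := Or.inr (hW.regX P hPO)
  obtain ⟨c, hc⟩ := Pool.Agent.W603.LV.exists_const P hXP
  obtain ⟨r, hr⟩ : ∃ r : Polynomial k, r = Polynomial.X ^ 3 + Polynomial.C a * Polynomial.X +
    Polynomial.C b := ⟨_, rfl⟩
  have hrX : Polynomial.aeval X r = Y ^ 2 := by
    rw [hr, hE]
    simp
  have hrc : r.eval c = 0 := by
    have h5 := ge_aeval hc r
    rw [hrX] at h5
    have h6 : Ge P 1 (Y ^ 2) := by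
      right
      rw [P.ord_pow]
      push_cast
      omega
    have h7 := h6.sub h5
    rw [sub_sub_cancel] at h7
    exact const_zero h7
  have hpc : p.eval c ≠ 0 := by
    intro h5
    have h6 : 3 * c ^ 2 + a = 0 := by
      have h7 : (3 * c ^ 2 + a) ^ 2 = 0 := by
        rw [hr] at hrc
        rw [hp] at h5
        simp only [Polynomial.eval_add, Polynomial.eval_sub, Polynomial.eval_mul,
          Polynomial.eval_pow, Polynomial.eval_X, Polynomial.eval_C] at h5 hrc
        linear_combination h5 + 8 * c * hrc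
      exact pow_eq_zero_iff (two_ne_zero) |>.1 h7
    apply hW.disc
    rw [hr] at hrc
    simp only [Polynomial.eval_add, Polynomial.eval_mul,
      Polynomial.eval_pow, Polynomial.eval_X, Polynomial.eval_C] at hrc
    have h7 : a = -3 * c ^ 2 := by linear_combination h6
    have h8 : b = 2 * c ^ 3 := by
      rw [h7] at hrc
      linear_combination hrc
    rw [h7, h8]
    ring
  have hP2 : P.ord X2 ≤ -2 := by
    have h5 := ge_aeval hc p
    have h6 : P.ord (Polynomial.aeval X p) = 0 := by
      have h7 : algebraMap k G (p.eval c) ≠ 0 := (_root_.map_ne_zero _).2 hpc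
      by_cases h8 : Polynomial.aeval X p - algebraMap k G (p.eval c) = 0
      · rw [sub_eq_zero.1 h8, P.ord_const hpc]
      · have h9 := P.ord_add_eq h7 h8 (by
          have := h5.resolve_left h8
          rw [P.ord_const hpc]
          omega)
        rw [add_sub_cancel, P.ord_const hpc] at h9
        exact h9.2
    rw [hpX, P.ord_mul hX20 h4Y, h4] at h6
    omega
  have hX2t : Transcendental k X2 := O.transcendental_of_ord_ne (by omega)
  have hXt : Transcendental k X := O.transcendental_of_ord_ne (by omega)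
  have hhX : hgt k X = 2 := by
    rw [hgt_eq_finrank hXt, finrank_of_pole (n := 2) (by norm_num) (by rw [hXO]; rfl) hW.regX]
    rfl
  have hhX2 : 4 ≤ hgt k X2 := by
    obtain ⟨T, hT, hT2⟩ := poles (k := k) (K := G) hX2t
    rw [hgt_eq_finrank hX2t, ← hT2]
    have hsub : ({O, P} : Finset (Place k G)) ⊆ T := by
      intro Q hQ
      rw [Finset.mem_insert, Finset.mem_singleton] at hQ
      rcases hQ with rfl | rfl
      · exact (hT _).2 (by omega)
      · exact (hT _).2 (by omega)
    have h5 := Finset.sum_le_sum_of_subset (f := fun w : Place k G => (-w.ord X2).toNat * w.deg)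
      hsub
    rw [Finset.sum_pair (Ne.symm hPO), deg_one, deg_one, mul_one, mul_one, hX2O] at h5
    have h6 : 2 ≤ (-P.ord X2).toNat := by omega
    have h7 : (4 : ℕ) ≤ ∑ w ∈ T, (-w.ord X2).toNat * w.deg := by
      refine le_trans ?_ h5
      have : (-(-2 : ℤ)).toNat = 2 := rfl
      omega
    exact_mod_cast h7
  have h5 := hd X
  rw [hσX, hhX] at h5
  by_contra hcon
  have h6 : d ≤ 1 := by omega
  have h7 : (d : ℤ) ≤ 1 := by exact_mod_cast h6
  omega

end Pool.Agent.K4H62.EL
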