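import Pool.Agent.K4H62.EL.Thru

/-!
Varieties which are covered by curves of genus one are not pseudo-geometrically hyperbolic.
-/

set_option autoImplicit false
set_option linter.overlappingInstances false
set_option linter.unusedSectionVars false
set_option maxHeartbeats 4000000
set_option synthInstance.maxHeartbeats 400000

open FF IntermediateField
open scoped LinearAlgebra.Projectivization

namespace Pool.Agent.K4H62.EL

open Pool.Agent.W603.LV Pool.Agent.W619.PQ Pool.Agent.K4H62.IT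
open Pool.Agent.W602.GT (val IsForm VarPts val_smul)
open Pool.Agent.W602.RG (HasValue PointedMaps PseudoGeomHyp)
open Pool.Agent.R882.HY (OnVar PseudoBounded)
open Pool.Agent.W603.PV (pord pord_le exists_pord pht)
open Pool.Agent.W603.CX (hgt_le_pht)

variable {k : Type} [Field k] [IsAlgClosed k] [CharZero k] {L : Type} [Field L] [Algebra k L]
  {M : ℕ} {x : Fin (M + 1) → L} {p : Fin (M + 1) → k} {G : Type} [Field G] [Algebra k G]
  [IsFF k G] {O : Place k G} {σ : G →ₐ[k] G} {d : ℕ} {f : Fin (M + 1) → G} {i j : Fin (M + 1)}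

theorem val_map (σ : G →ₐ[k] G) (f : Fin (M + 1) → G) (H : MvPolynomial (Fin (M + 1)) k) :
    val (fun l => σ (f l)) H = σ (val f H) := by
  unfold Pool.Agent.W602.GT.val
  exact (MvPolynomial.comp_aeval_apply f σ H).symm

/-- the composition with the endomorphism -/
theorem EllMap.next (h : EllMap x p G O σ d f i j) :
    EllMap x p G O σ d (fun l => σ (f l)) i j := by
  have hinj : Function.Injective σ := σ.injective
  have hne : ∀ {g : G}, g ≠ 0 → σ g ≠ 0 := fun hg h0 => hg (hinj (by rw [h0, map_zero]))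
  have hpord : pord O (fun l => σ (f l)) ≤ pord O f := by
    obtain ⟨l, hl, hl2⟩ := exists_pord O h.on.1
    rw [← hl2, ← h.fix (f l)]
    exact pord_le O (f := fun l => σ (f l)) (hne hl)
  refine ⟨h.fix, h.two, h.mult, ⟨?_, fun H hH hx => ?_⟩, fun a b => ?_, hne h.ne_i, hne h.ne_j, ?_,
    h.mem, fun H hH hp => ?_, h.wei⟩
  · obtain ⟨l, hl⟩ := h.on.1
    exact ⟨l, hne hl⟩
  · rw [val_map, h.on.2 H hH hx, map_zero]
  · have h1 : algebraMap k G (p a) * σ (f b) - algebraMap k G (p b) * σ (f a) =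
        σ (algebraMap k G (p a) * f b - algebraMap k G (p b) * f a) := by
      rw [map_sub, map_mul, map_mul, σ.commutes, σ.commutes]
    change algebraMap k G (p a) * σ (f b) - algebraMap k G (p b) * σ (f a) = 0 ∨ _ < O.ord
      (algebraMap k G (p a) * σ (f b) - algebraMap k G (p b) * σ (f a))
    rw [h1, h.fix]
    rcases h.value a b with h2 | h2
    · left
      rw [h2, map_zero]
    · right
      exact lt_of_le_of_lt hpord h2
  · have h1 : σ (f i) / σ (f j) = σ (f i / f j) := by rw [map_div₀]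
    change Transcendental k (σ (f i) / σ (f j))
    rw [h1]
    intro halg
    exact h.trans ((isAlgebraic_algHom_iff σ hinj).1 halg)
  · rw [val_map]
    exact hne (h.nz H hH hp)

/-- the degrees -/
theorem EllMap.deg (h : EllMap x p G O σ d f i j) :
    2 * hgt k (f i / f j) ≤ hgt k (σ (f i) / σ (f j)) := by
  rw [← map_div₀, h.mult]
  have h1 := hgt_nonneg (k := k) (f i / f j)
  have h2 : (2 : ℤ) ≤ d := by exact_mod_cast h.two
  nlinarith

theorem EllMap.pos (h : EllMap x p G O σ d f i j) : 1 ≤ hgt k (f i / f j) := by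
  by_contra hcon
  obtain ⟨c, hc⟩ := const_of_hgt (k := k) (f := f i / f j) (by omega)
  exact h.trans (hc ▸ isAlgebraic_algebraMap c)

/-- maps of large degree -/
theorem EllMap.large (h : EllMap x p G O σ d f i j) (D : ℤ) :
    ∃ f' : Fin (M + 1) → G, EllMap x p G O σ d f' i j ∧ D < hgt k (f' i / f' j) := by
  have h1 : ∀ q : ℕ, ∃ f' : Fin (M + 1) → G, EllMap x p G O σ d f' i j ∧
      (q : ℤ) < hgt k (f' i / f' j) := by
    intro q
    induction q with
    | zero => exact ⟨f, h, by have := h.pos; push_cast; omega⟩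
    | succ q ih =>
      obtain ⟨f', h2, h3⟩ := ih
      refine ⟨fun l => σ (f' l), h2.next, ?_⟩
      have h4 := h2.deg
      have h5 := h2.pos
      push_cast
      change (q : ℤ) + 1 < hgt k (σ (f' i) / σ (f' j))
      omega
  obtain ⟨f', h2, h3⟩ := h1 D.toNat
  exact ⟨f', h2, by omega⟩

/-- The curve with the function field `E` is the projective line or a curve of genus one: `E` is
generated by one function, or by two functions with the equation `Y ^ 2 = X ^ 3 + a X + b`. -/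
def LowGenus (k E : Type) [Field k] [Field E] [Algebra k E] : Prop :=
  (∃ s : E, IntermediateField.adjoin k {s} = ⊤) ∨
    ∃ (a b : k) (X Y : E), 4 * a ^ 3 + 27 * b ^ 2 ≠ 0 ∧
      Y ^ 2 = X ^ 3 + algebraMap k E a * X + algebraMap k E b ∧
      IntermediateField.adjoin k {X, Y} = ⊤

theorem EllMap.low (h : EllMap x p G O σ d f i j) : LowGenus k G := by
  obtain ⟨a, b, X, Y, hW⟩ := h.wei
  exact Or.inr ⟨a, b, X, Y, hW.disc, hW.eqn, hW.gen⟩

/-- Pseudo-geometric hyperbolicity, tested on the curves of genus at most one. -/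
def GeomHyp1 (k : Type) [Field k] {L : Type} [Field L] [Algebra k L] {M : ℕ}
    (x : Fin (M + 1) → L) : Prop :=
  ∃ G : MvPolynomial (Fin (M + 1)) k, IsForm G ∧ val x G ≠ 0 ∧
    ∀ (E : Type) [Field E] [Algebra k E] [IsFF k E], LowGenus k E → ∀ (c : Place k E),
      ∀ p ∈ VarPts k x, val p G ≠ 0 → (PointedMaps x c p).Finite

/-- Boundedness of the degrees of the maps from every curve of genus at most one. -/
def Bounded1 (k : Type) [Field k] {L : Type} [Field L] [Algebra k L] {M : ℕ}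
    (x : Fin (M + 1) → L) : Prop :=
  ∃ G : MvPolynomial (Fin (M + 1)) k, IsForm G ∧ val x G ≠ 0 ∧
    ∀ (E : Type) [Field E] [Algebra k E] [IsFF k E], LowGenus k E → ∃ D : ℤ,
      ∀ f : Fin (M + 1) → E, OnVar k x f → val f G ≠ 0 → pht k f ≤ D

theorem geom1_of (h : PseudoGeomHyp k x) : GeomHyp1 k x := by
  obtain ⟨G, h1, h2, h3⟩ := h
  exact ⟨G, h1, h2, fun E _ _ _ _ c p hp hpG => h3 E c p hp hpG⟩

theorem bounded1_of (h : PseudoBounded k x) : Bounded1 k x := by
  obtain ⟨G, h1, h2, h3⟩ := h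
  exact ⟨G, h1, h2, fun E _ _ _ _ => h3 E⟩

/-- A variety with curves of genus one through general points is not pseudo-geometrically
hyperbolic. -/
theorem not_geom_ell (h : ∀ R : MvPolynomial (Fin (M + 1)) k, IsForm R → val x R ≠ 0 →
    ∃ (p : Fin (M + 1) → k) (G : Type) (_ : Field G) (_ : Algebra k G) (_ : IsFF k G)
      (O : Place k G) (σ : G →ₐ[k] G) (d : ℕ) (f : Fin (M + 1) → G),
      EllMap x p G O σ d f i j ∧ val p R ≠ 0) : ¬ GeomHyp1 k x := by
  classical
  rintro ⟨R, hR, hRx, hfin⟩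
  obtain ⟨p, G, _, _, _, O, σ, d, f, hE, hpR⟩ := h R hR hRx
  have hf := hfin G hE.low O p hE.mem hpR
  let ht : ℙ G (Fin (M + 1) → G) → ℤ := fun φ => hgt k (φ.rep i / φ.rep j)
  obtain ⟨D, hD⟩ : ∃ D : ℤ, ∀ φ ∈ PointedMaps x O p, ht φ ≤ D := by
    obtain ⟨D, hD⟩ := (hf.image ht).bddAbove
    exact ⟨D, fun φ hφ => hD ⟨φ, hφ, rfl⟩⟩
  obtain ⟨f', h1, h2⟩ := hE.large D
  have hne : f' ≠ 0 := fun h0 => h1.ne_i (congrFun h0 i)
  have h6 := hD (Projectivization.mk G f' hne) ⟨_, hne, h1.on.2, h1.value, rfl⟩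
  obtain ⟨a, ha⟩ := Projectivization.exists_smul_eq_mk_rep G f' hne
  have h7 : ht (Projectivization.mk G f' hne) = hgt k (f' i / f' j) := by
    change hgt k ((Projectivization.mk G f' hne).rep i /
      (Projectivization.mk G f' hne).rep j) = _
    rw [← ha]
    congr 1
    simp only [Pi.smul_apply, Units.smul_def, smul_eq_mul]
    rw [mul_div_mul_left _ _ a.ne_zero]
  rw [h7] at h6
  omega

/-- A variety with curves of genus one through general points is not bounded. -/
theorem not_bdd_ell (h : ∀ R : MvPolynomial (Fin (M + 1)) k, IsForm R → val x R ≠ 0 →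
    ∃ (p : Fin (M + 1) → k) (G : Type) (_ : Field G) (_ : Algebra k G) (_ : IsFF k G)
      (O : Place k G) (σ : G →ₐ[k] G) (d : ℕ) (f : Fin (M + 1) → G),
      EllMap x p G O σ d f i j ∧ val p R ≠ 0) : ¬ Bounded1 k x := by
  rintro ⟨R, hR, hRx, hb⟩
  obtain ⟨p, G, _, _, _, O, σ, d, f, hE, hpR⟩ := h R hR hRx
  obtain ⟨D, hD⟩ := hb G hE.low
  obtain ⟨f', h1, h2⟩ := hE.large D
  have h6 := hD _ h1.on (h1.nz R hR hpR)
  have h7 := hgt_le_pht (k := k) f' h1.ne_i h1.ne_j
  omega

theorem low_ratFunc : LowGenus k (RatFunc k) := Or.inl ⟨RatFunc.X, RatFunc.adjoin_X⟩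

/-- a variety with rational curves through general points -/
theorem not_geom_rat (h : ∀ R : MvPolynomial (Fin (M + 1)) k, IsForm R → val x R ≠ 0 →
    ∃ (p : Fin (M + 1) → k) (P : Fin (M + 1) → Polynomial k),
      Pool.Agent.R882.HY.RatThrough x p P ∧ val p R ≠ 0) : ¬ GeomHyp1 k x := by
  classical
  rintro ⟨R, hR, hRx, hfin⟩
  obtain ⟨p, P, hP, hpR⟩ := h R hR hRx
  obtain ⟨c, i, j, hmaps⟩ := hP.maps
  have hpV : p ∈ VarPts k x := by
    refine ⟨hP.ne, fun H hH hHx => ?_⟩
    have h3 := Pool.Agent.R882.HY.aeval_poly P (0 : k) H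
    rw [hP.mem H hH hHx, map_zero, Polynomial.coe_aeval_eq_eval] at h3
    rw [← h3]
    congr 1
    funext l
    exact (hP.pt l).symm
  have hf := hfin (RatFunc k) low_ratFunc c p hpV hpR
  let ht : ℙ (RatFunc k) (Fin (M + 1) → RatFunc k) → ℤ := fun φ => hgt k (φ.rep i / φ.rep j)
  obtain ⟨D, hD⟩ : ∃ D : ℤ, ∀ φ ∈ PointedMaps x c p, ht φ ≤ D := by
    obtain ⟨D, hD⟩ := (hf.image ht).bddAbove
    exact ⟨D, fun φ hφ => hD ⟨φ, hφ, rfl⟩⟩
  obtain ⟨q, hq⟩ : ∃ q : ℕ, q = D.toNat + 1 := ⟨_, rfl⟩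
  obtain ⟨h1, h2, -, h3, h4, h5⟩ := hmaps q (by omega)
  have hne : (fun l => Polynomial.aeval ((RatFunc.X : RatFunc k) ^ q) (P l)) ≠ 0 :=
    fun h0 => h3 (congrFun h0 i)
  have h6 := hD (Projectivization.mk (RatFunc k) _ hne) ⟨_, hne, h1.2, h2, rfl⟩
  obtain ⟨a, ha⟩ := Projectivization.exists_smul_eq_mk_rep (RatFunc k) _ hne
  have h7 : ht (Projectivization.mk (RatFunc k) _ hne) =
      hgt k (Polynomial.aeval ((RatFunc.X : RatFunc k) ^ q) (P i) /
        Polynomial.aeval ((RatFunc.X : RatFunc k) ^ q) (P j)) := by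
    change hgt k ((Projectivization.mk (RatFunc k) _ hne).rep i /
      (Projectivization.mk (RatFunc k) _ hne).rep j) = _
    rw [← ha]
    congr 1
    simp only [Pi.smul_apply, Units.smul_def, smul_eq_mul]
    rw [mul_div_mul_left _ _ a.ne_zero]
  rw [h7] at h6
  omega

/-- a variety with rational curves through general points is not bounded -/
theorem not_bdd_rat (h : ∀ R : MvPolynomial (Fin (M + 1)) k, IsForm R → val x R ≠ 0 →
    ∃ (p : Fin (M + 1) → k) (P : Fin (M + 1) → Polynomial k),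
      Pool.Agent.R882.HY.RatThrough x p P ∧ val p R ≠ 0) : ¬ Bounded1 k x := by
  rintro ⟨R, hR, hRx, hb⟩
  obtain ⟨p, P, hP, hpR⟩ := h R hR hRx
  obtain ⟨c, i, j, hmaps⟩ := hP.maps
  obtain ⟨D, hD⟩ := hb (RatFunc k) low_ratFunc
  obtain ⟨q, hq⟩ : ∃ q : ℕ, q = D.toNat + 1 := ⟨_, rfl⟩
  obtain ⟨h1, -, h2, h3, h4, h5⟩ := hmaps q (by omega)
  have h6 := hD _ h1 (h2 R hpR)
  have h7 := hgt_le_pht (k := k) (fun l => Polynomial.aeval ((RatFunc.X : RatFunc k) ^ q) (P l))
    h3 h4
  omega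

end Pool.Agent.K4H62.EL
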