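import Pool.Agent.K4H62.IT.Geo
import Pool.Agent.K4H62.EL.Inf

/-!
Images of a variety which is fibred by curves: if the traces are proportional then the image is
uniruled or dominated by a variety fibred by curves of genus one.
-/

set_option autoImplicit false
set_option linter.overlappingInstances false
set_option linter.unusedSectionVars false
set_option maxHeartbeats 4000000
set_option synthInstance.maxHeartbeats 400000

open IntermediateField Module FF Pool.Agent.W619.PQ Pool.Agent.W603.LV Pool.Agent.R882.GL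
open Pool.Agent.W602.GT (Divisorial RegAt IsPluri coords val IsForm)
open Pool.Agent.W602.RG (PseudoGeomHyp)
open Pool.Agent.R882.HY (PseudoBounded)
open Pool.Agent.K4H62.IT

namespace Pool.Agent.K4H62.EL

/-- `R` is contained in the function field `G` of a curve over the algebraically closed field `Λ`,
which is not rational and whose pluricanonical forms are proportional, but not in `Λ`. -/
def EllFib (R : Type) [Field R] [Algebra ℂ R] : Prop :=
  ∃ (Λ G : Type) (_ : Field Λ) (_ : Field G) (_ : Algebra ℂ Λ) (_ : Algebra Λ G)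
    (_ : Algebra ℂ G) (_ : IsScalarTower ℂ Λ G) (_ : IsAlgClosed Λ) (_ : IsFF Λ G)
    (ψ : R →ₐ[ℂ] G), (¬ ∃ s : G, IntermediateField.adjoin Λ {s} = ⊤) ∧ Uniq Λ G ∧
      ∃ z : R, ∀ c : Λ, algebraMap Λ G c ≠ ψ z

variable {K : Type} [Field K] [Algebra ℂ K] {n : ℕ}

section

variable {B Λ F : Type} [Field B] [Field Λ] [Field F] [Algebra ℂ B] [Algebra B K]
  [IsScalarTower ℂ B K] [Algebra B Λ] [Algebra Λ F] [Algebra K F] [Algebra B F]
  [IsScalarTower B Λ F] [IsScalarTower B K F] [Algebra ℂ Λ] [Algebra ℂ F] [IsScalarTower ℂ Λ F]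
  [IsScalarTower ℂ K F] [IsScalarTower ℂ B Λ] [Algebra.IsAlgebraic B Λ] [IsAlgClosed Λ]

/-- **Proportional traces, abstract form.** -/
theorem prop_abs2 [hess : Algebra.EssFiniteType ℂ K] (hK : Algebra.trdeg ℂ K = (n + 1 : ℕ))
    (hB : Algebra.trdeg ℂ B = n)
    (hcl : ∀ x : K, IsIntegral B x → ∃ y : B, algebraMap B K y = x)
    (hgenF : IntermediateField.adjoin Λ (Set.range (algebraMap K F)) = ⊤)
    (E' : IntermediateField B K) [FiniteDimensional E' K] {J : Type} [Finite J]
    (ω : J → (Fin (n + 1) → Derivation ℂ K K) → K) (hω : ∀ j, IsPluri 1 (ω j))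
    (hreg : ∀ j (P : Place ℂ K), Divisorial (n + 1) P → RegAt P (ω j))
    (hspan : ∀ (t : Fin n → K) (ξ : K), (∀ j, t j ∈ Set.range (algebraMap B K)) →
      IsTranscendenceBasis ℂ (Fin.append t (fun _ : Fin 1 => ξ)) →
      ∀ E : Fin (n + 1) → Derivation ℂ K K,
      (∀ i j, E i (Fin.append t (fun _ : Fin 1 => ξ) j) = if i = j then 1 else 0) →
      ∀ D : Derivation Λ F F, D (algebraMap K F ξ) = 1 →
      (∀ j (Q : Place Λ F), algebraMap K F (ω j E) = 0 ∨
        vo Q D ≤ Q.ord (algebraMap K F (ω j E))) →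
      ∀ f : F, f ≠ 0 → (∀ Q : Place Λ F, vo Q D ≤ Q.ord f) →
        f ∈ Submodule.span Λ (Set.range fun j => algebraMap K F (ω j E)))
    (htr : ∀ (D0 : Fin (n + 1) → Derivation ℂ (E'.restrictScalars ℂ) (E'.restrictScalars ℂ))
      (Ef : Fin (n + 1) → Derivation ℂ K K),
      (∀ i (z : E'.restrictScalars ℂ), Ef i (algebraMap (E'.restrictScalars ℂ) K z) =
        algebraMap (E'.restrictScalars ℂ) K (D0 i z)) →
      ∃ h0 : E', ∀ j, ∃ b : B, Algebra.trace E' K (ω j Ef) = b • h0) :
    IsUniruled ℂ (E'.restrictScalars ℂ) (n + 1) ∨ EllFib (E'.restrictScalars ℂ) := by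
  classical
  have hB0 : CharZero B := charZero_of_injective_algebraMap (algebraMap ℂ B).injective
  have hΛ0 : CharZero Λ := charZero_of_injective_algebraMap (algebraMap B Λ).injective
  -- the coordinates
  obtain ⟨tB, htB⟩ := Pool.Agent.W636.PG.exists_basis ℂ B n hB
  have hLK : Algebra.trdeg B K = (1 : ℕ) :=
    Pool.Agent.Y174.trdeg_LK (r := 1) hB hK
  obtain ⟨ξ, hξE, hξ⟩ : ∃ ξ : K, ξ ∈ E' ∧ ¬ IsAlgebraic B ξ := by
    by_contra hcon
    push Not at hcon
    have h1 : Algebra.IsAlgebraic B E' := ⟨fun z => by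
      have h2 := hcon (z : K) z.2
      exact (isAlgebraic_algebraMap_iff (R := B) (algebraMap E' K).injective).1 h2⟩
    have h2 : Algebra.IsAlgebraic B K := Algebra.IsAlgebraic.trans B E' K
    have h3 : Algebra.trdeg B K = 0 := trdeg_eq_zero
    rw [h3] at hLK
    have h4 : (0 : ℕ) = 1 := by exact_mod_cast hLK
    exact zero_ne_one h4
  have hxB : IsTranscendenceBasis B (fun _ : Fin (0 + 1) => ξ) := by
    have h1 : AlgebraicIndependent B (fun _ : Fin (0 + 1) => ξ) := by
      have : Unique (Fin (0 + 1)) := inferInstanceAs (Unique (Fin 1))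
      rw [algebraicIndependent_unique_type_iff]
      exact hξ
    refine h1.isTranscendenceBasis_of_lift_trdeg_le_of_finite ?_
    rw [hLK]
    simp
  have hZ := Pool.Agent.Y174.basis_append htB hxB
  -- the frame, lifted from `E'`
  obtain ⟨EE, hEE⟩ : ∃ EE : IntermediateField ℂ K, EE = E'.restrictScalars ℂ := ⟨_, rfl⟩
  have hfinE : FiniteDimensional EE K := by
    rw [hEE]
    exact inferInstanceAs (FiniteDimensional E' K)
  have hEtr : Algebra.trdeg ℂ EE = (n + 1 : ℕ) :=
    Pool.Agent.Y184.NT.trdeg_below (K := K) hK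
  have hmemE : ∀ i, Fin.append (algebraMap B K ∘ tB) (fun _ : Fin (0 + 1) => ξ) i ∈ EE := by
    intro i
    rw [hEE]
    refine Fin.addCases (fun i => ?_) (fun i => ?_) i
    · rw [Fin.append_left]
      exact E'.algebraMap_mem (tB i)
    · rw [Fin.append_right]
      exact hξE
  obtain ⟨zE, hzE⟩ : ∃ zE : Fin (n + 1) → EE, ∀ i, (zE i : K) =
    Fin.append (algebraMap B K ∘ tB) (fun _ : Fin (0 + 1) => ξ) i :=
      ⟨fun i => ⟨_, hmemE i⟩, fun _ => rfl⟩
  have hzEb : IsTranscendenceBasis ℂ zE := by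
    have h1 : AlgebraicIndependent ℂ zE := by
      refine AlgebraicIndependent.of_comp EE.val ?_
      have h2 : (EE.val ∘ zE) = Fin.append (algebraMap B K ∘ tB) (fun _ : Fin (0 + 1) => ξ) :=
        funext hzE
      rw [h2]
      exact hZ.1
    refine h1.isTranscendenceBasis_of_lift_trdeg_le_of_finite ?_
    rw [hEtr]
    simp
  obtain ⟨D0, hD0⟩ := Pool.Agent.W636.PG.exists_duals ℂ EE (n + 1) zE hzEb
  choose Ef hEf using fun i => Pool.Agent.Y172.exists_lift (k := ℂ) (K := EE) (L := K) hEtr (D0 i)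
  have hEd : ∀ i j, Ef i (Fin.append (algebraMap B K ∘ tB) (fun _ : Fin (0 + 1) => ξ) j) =
      if i = j then 1 else 0 := by
    intro i j
    rw [← hzE j]
    have h1 := hEf i (zE j)
    rw [hD0] at h1
    refine h1.trans ?_
    by_cases h : i = j
    · rw [if_pos h, if_pos h, map_one]
    · rw [if_neg h, if_neg h, map_zero]
  obtain ⟨h0, hh0⟩ : ∃ h0 : E', ∀ j, ∃ b : B, Algebra.trace E' K (ω j Ef) = b • h0 := by
    subst hEE
    exact htr D0 Ef hEf
  -- the fibre
  have htrF : Algebra.trdeg Λ F = (1 : ℕ) :=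
    Pool.Agent.Y174.trdeg_F (L := B) (K := K) hLK hgenF
  have hessF : Algebra.EssFiniteType Λ F := Pool.Agent.Y174.ess_F (k := ℂ) (K := K) hess hgenF
  have hFF : IsFF Λ F := ⟨hessF, by rw [htrF]; simp⟩
  have hKFalg : Algebra.IsAlgebraic K F := Pool.Agent.Y174.alg_KF (L := B) hgenF
  have hξF : Transcendental Λ (algebraMap K F ξ) := by
    intro h
    apply hξ
    have h1 : IsAlgebraic B (algebraMap K F ξ) := h.restrictScalars B
    exact (isAlgebraic_algebraMap_iff (R := B) (algebraMap K F).injective).1 h1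
  have hd0 := der_ne (k := Λ) (K := F)
  have hd1 := der_ne_zero hd0 hξF
  obtain ⟨D, hDd⟩ : ∃ D : Derivation Λ F F, D = (der Λ F (algebraMap K F ξ))⁻¹ • der Λ F :=
    ⟨_, rfl⟩
  have hD1 : D (algebraMap K F ξ) = 1 := by
    rw [hDd, Derivation.smul_apply, smul_eq_mul, inv_mul_cancel₀ hd1]
  have hregF : ∀ j (Q : Place Λ F), algebraMap K F (ω j Ef) = 0 ∨
      vo Q D ≤ Q.ord (algebraMap K F (ω j Ef)) := fun j Q =>
    Pool.Agent.R882.GL.reg_res (Λ := Λ) hK hFF htB hxB hEd hD1 (hω j) (hreg j) Q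
  obtain ⟨FE, hFE⟩ : ∃ FE : IntermediateField Λ F,
    FE = IntermediateField.adjoin Λ (algebraMap K F '' E') := ⟨_, rfl⟩
  have hmemFE : ∀ e : K, e ∈ E' → algebraMap K F e ∈ FE := by
    intro e he
    rw [hFE]
    exact IntermediateField.subset_adjoin _ _ ⟨e, he, rfl⟩
  have hessE' : Algebra.EssFiniteType ℂ (E'.restrictScalars ℂ) := by
    have h1 : FiniteDimensional (E'.restrictScalars ℂ : IntermediateField ℂ K) K :=
      inferInstanceAs (FiniteDimensional E' K)
    exact Pool.Agent.TH466.QG.ess_below (K := K)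
  have hEtr' : Algebra.trdeg ℂ (E'.restrictScalars ℂ : IntermediateField ℂ K) = (n + 1 : ℕ) := by
    rw [← hEE]
    exact hEtr
  by_cases hrat : ∃ s : FE, IntermediateField.adjoin Λ {s} = ⊤
  · left
    obtain ⟨s, hs⟩ := hrat
    have hΛtr : Algebra.trdeg ℂ Λ = (n : ℕ) := by
      have h1 := trdeg_add_eq ℂ B (A := Λ)
      have h2 : Algebra.trdeg B Λ = 0 := trdeg_eq_zero
      rw [h2, add_zero, hB] at h1
      exact h1.symm
    have hsF : Transcendental Λ ((s : FE) : F) := by
      intro h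
      have h1 : IsAlgebraic Λ s :=
        (isAlgebraic_algebraMap_iff (R := Λ) (algebraMap FE F).injective).1 h
      have h2 : Algebra.IsAlgebraic Λ (IntermediateField.adjoin Λ {s}) :=
        IntermediateField.isAlgebraic_adjoin_simple h1.isIntegral
      have h3 : IsAlgebraic Λ (⟨algebraMap K F ξ, hmemFE ξ hξE⟩ : FE) := by
        have h4 : (⟨algebraMap K F ξ, hmemFE ξ hξE⟩ : FE) ∈ IntermediateField.adjoin Λ {s} := by
          rw [hs]
          trivial
        have h5 := h2.isAlgebraic ⟨_, h4⟩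
        exact (isAlgebraic_algebraMap_iff (R := Λ)
          (algebraMap (IntermediateField.adjoin Λ {s}) FE).injective).2 h5
      exact hξF ((isAlgebraic_algebraMap_iff (R := Λ) (algebraMap FE F).injective).2 h3)
    refine uniruled_geo (E := (E'.restrictScalars ℂ : IntermediateField ℂ K)) (Λ := Λ) (F := F)
      hEtr' hΛtr rfl ((IsScalarTower.toAlgHom ℂ K F).comp
        (E'.restrictScalars ℂ : IntermediateField ℂ K).val) ((s : FE) : F) hsF fun e => ?_
    have h1 : (⟨algebraMap K F (e : K), hmemFE _ e.2⟩ : FE) ∈ IntermediateField.adjoin Λ {s} := by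
      rw [hs]
      trivial
    have h2 : (IntermediateField.adjoin Λ {s}).map FE.val =
        IntermediateField.adjoin Λ {((s : FE) : F)} := by
      rw [IntermediateField.adjoin_map, Set.image_singleton]
      rfl
    rw [← h2]
    exact ⟨_, h1, rfl⟩
  right
  obtain ⟨hFFE, hU⟩ := one_fib (J := J) hFF hcl hgenF E' FE hFE hξE hξF hD1
    (fun j => ω j Ef) (fun f hf0 hf => hspan (algebraMap B K ∘ tB) ξ (fun j => ⟨tB j, rfl⟩) hZ
      Ef hEd D hD1 hregF f hf0 hf) hh0 hrat
  refine ⟨Λ, FE, inferInstance, inferInstance, inferInstance, inferInstance, inferInstance,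
    inferInstance, inferInstance, hFFE,
    { toFun := fun e => ⟨algebraMap K F (e : K), hmemFE _ e.2⟩
      map_one' := Subtype.ext (map_one _)
      map_mul' := fun a b => Subtype.ext (map_mul _ _ _)
      map_zero' := Subtype.ext (map_zero _)
      map_add' := fun a b => Subtype.ext (map_add _ _ _)
      commutes' := fun c => Subtype.ext (IsScalarTower.algebraMap_apply ℂ K F c).symm },
    hrat, hU, ⟨ξ, hξE⟩, fun c hc => ?_⟩
  have h1 : algebraMap Λ F c = algebraMap K F ξ := congrArg Subtype.val hc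
  exact hξF (h1 ▸ isAlgebraic_algebraMap c)

end

/-- **Proportional traces.** If the traces of the forms which generate the regular differentials of
the fibres are proportional then the variety is uniruled or fibred by curves of genus one. -/
theorem prop_geo2 [hess : Algebra.EssFiniteType ℂ K] (hK : Algebra.trdeg ℂ K = (n + 1 : ℕ))
    (B : IntermediateField ℂ K) (hB : Algebra.trdeg ℂ B = n)
    (hcl : ∀ z : K, IsAlgebraic B z → z ∈ B) (E' : IntermediateField B K)
    [FiniteDimensional E' K] {J : Type} [Finite J]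
    (ω : J → (Fin (n + 1) → Derivation ℂ K K) → K) (hω : ∀ j, IsPluri 1 (ω j))
    (hreg : ∀ j (P : Place ℂ K), Divisorial (n + 1) P → RegAt P (ω j))
    (hspan : SpanFib B ω)
    (htr : ∀ (D0 : Fin (n + 1) → Derivation ℂ (E'.restrictScalars ℂ) (E'.restrictScalars ℂ))
      (Ef : Fin (n + 1) → Derivation ℂ K K),
      (∀ i (z : E'.restrictScalars ℂ), Ef i (algebraMap (E'.restrictScalars ℂ) K z) =
        algebraMap (E'.restrictScalars ℂ) K (D0 i z)) →
      ∃ h0 : E', ∀ j, ∃ b : B, Algebra.trace E' K (ω j Ef) = b • h0) :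
    IsUniruled ℂ (E'.restrictScalars ℂ) (n + 1) ∨ EllFib (E'.restrictScalars ℂ) := by
  classical
  have hcl' : ∀ z : K, IsIntegral B z → ∃ y : B, algebraMap B K y = z := fun z hz =>
    ⟨⟨z, hcl z hz.isAlgebraic⟩, rfl⟩
  let Ω := AlgebraicClosure K
  let Λ : IntermediateField B Ω := algebraicClosure B Ω
  have hΛ : IsAlgClosed Λ := (algebraicClosure.isAlgClosure B Ω).isAlgClosed
  have hΛalg : Algebra.IsAlgebraic B Λ := inferInstance
  let F : IntermediateField Λ Ω := IntermediateField.adjoin Λ (Set.range (algebraMap K Ω))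
  have hTL : IsScalarTower ℂ B Ω := IsScalarTower.of_algebraMap_eq fun z => by
    rw [IsScalarTower.algebraMap_apply ℂ K Ω]
    rfl
  have hTΛ : IsScalarTower ℂ Λ Ω := IsScalarTower.of_algebraMap_eq fun z => by
    rw [IsScalarTower.algebraMap_apply ℂ B Ω]
    rfl
  let φ0 : K →+* F :=
    { toFun := fun z => ⟨algebraMap K Ω z, IntermediateField.subset_adjoin _ _ ⟨z, rfl⟩⟩
      map_one' := Subtype.ext (map_one _)
      map_mul' := fun a b => Subtype.ext (map_mul _ _ _)
      map_zero' := Subtype.ext (map_zero _)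
      map_add' := fun a b => Subtype.ext (map_add _ _ _) }
  let iKF : Algebra K F := φ0.toAlgebra
  have hKF : ∀ z : K, ((algebraMap K F z : F) : Ω) = algebraMap K Ω z := fun z => rfl
  have hT1 : IsScalarTower B K F := IsScalarTower.of_algebraMap_eq fun z => Subtype.ext rfl
  have hT2 : IsScalarTower ℂ K F := IsScalarTower.of_algebraMap_eq fun z => by
    apply Subtype.ext
    rw [hKF, ← IsScalarTower.algebraMap_apply ℂ K Ω]
    rfl
  have hT3 : IsScalarTower ℂ B Λ := inferInstance
  have hT4 : IsScalarTower B Λ F := IsScalarTower.of_algebraMap_eq fun z => Subtype.ext rfl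
  have hT5 : IsScalarTower ℂ Λ F := inferInstance
  have hgenF : IntermediateField.adjoin Λ (Set.range (algebraMap K F)) = ⊤ := by
    have h1 : (IntermediateField.adjoin Λ (Set.range (algebraMap K F))).map F.val =
        (⊤ : IntermediateField Λ F).map F.val := by
      rw [IntermediateField.adjoin_map, ← AlgHom.fieldRange_eq_map,
        IntermediateField.fieldRange_val]
      congr 1
      ext z
      simp only [Set.mem_image, Set.mem_range]
      constructor
      · rintro ⟨_, ⟨y, rfl⟩, rfl⟩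
        exact ⟨y, rfl⟩
      · rintro ⟨y, rfl⟩
        exact ⟨_, ⟨y, rfl⟩, rfl⟩
    exact IntermediateField.map_injective _ h1
  have hLK : Algebra.trdeg B K = (1 : ℕ) := Pool.Agent.Y174.trdeg_LK (r := 1) hB hK
  have htrF : Algebra.trdeg Λ F = (1 : ℕ) :=
    Pool.Agent.Y174.trdeg_F (L := B) (K := K) hLK hgenF
  have hessF : Algebra.EssFiniteType Λ F := Pool.Agent.Y174.ess_F (k := ℂ) (K := K) hess hgenF
  have hFF : IsFF Λ F := ⟨hessF, by rw [htrF]; simp⟩
  have htransc : ∀ z : K, ¬ IsAlgebraic B z → Transcendental Λ (algebraMap K F z) := by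
    intro z hz h
    apply hz
    have h1 : IsAlgebraic B (algebraMap K F z) := h.restrictScalars B
    exact (isAlgebraic_algebraMap_iff (R := B) (algebraMap K F).injective).1 h1
  refine prop_abs2 (Λ := Λ) (F := F) hK hB hcl' hgenF E' ω hω hreg ?_ htr
  intro t ξ ht hZ Ef hEf D hD hregF f hf0 hf
  exact hspan Λ F (IsScalarTower.toAlgHom ℂ K F) hFF hgenF
    (fun z hz => ⟨algebraMap B Λ ⟨z, hz⟩, Subtype.ext rfl⟩) (fun z hz => htransc z hz) t ξ
    (fun j => by
      obtain ⟨b, hb⟩ := ht j
      rw [← hb]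
      exact b.2) hZ Ef hEf D hD hregF f hf0 hf

/-- curves without zeros of the regular differentials -/
theorem hno_of_uniq {Λ G : Type} [Field Λ] [Field G] [Algebra Λ G] [CharZero Λ] [IsAlgClosed Λ]
    [IsFF Λ G] (hrat : ¬ ∃ s : G, IntermediateField.adjoin Λ {s} = ⊤) (hU : Uniq Λ G)
    {D : Derivation Λ G G} (hD : D ≠ 0) (Q : Place Λ G) (f : G) (hf0 : f ≠ 0)
    (hf : ∀ P : Place Λ G, vo P D ≤ P.ord f) : Q.ord f = vo Q D := by
  refine no_zero hD (fun b hb => ?_) (f0 := f) (fun g hg0 hg => ?_) Q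
  · by_contra hle
    push Not at hle
    have hfin := IsFF.finite hb
    have hpos : 0 < Module.finrank (IntermediateField.adjoin Λ {b}) G := Module.finrank_pos
    have h1 : Module.finrank (IntermediateField.adjoin Λ {b}) G = 1 := by omega
    exact hrat ⟨b, IntermediateField.finrank_eq_one_iff_eq_top.1 h1⟩
  · exact hU 1 D hD g f hg0 hf0 (fun P => by simpa using hg P) (fun P => by simpa using hf P)

/-- subfields -/
theorem EllFib.down {R L : Type} [Field R] [Algebra ℂ R] [Field L] [Algebra ℂ L] [Algebra L R]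
    [IsScalarTower ℂ L R] [Algebra.IsAlgebraic L R] (h : EllFib R) : EllFib L := by
  obtain ⟨Λ, G, _, _, _, _, _, _, _, hFF, ψ, hrat, hU, z, hz⟩ := h
  refine ⟨Λ, G, inferInstance, inferInstance, inferInstance, inferInstance, inferInstance,
    inferInstance, inferInstance, hFF, ψ.comp (IsScalarTower.toAlgHom ℂ L R), hrat, hU, ?_⟩
  by_contra hcon
  push Not at hcon
  choose c hc using hcon
  -- `z` is algebraic over `Λ`
  let g : L →+* Λ :=
    { toFun := c
      map_one' := (algebraMap Λ G).injective (by rw [hc, map_one, map_one])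
      map_mul' := fun a b => (algebraMap Λ G).injective (by rw [hc, map_mul, map_mul, hc, hc])
      map_zero' := (algebraMap Λ G).injective (by rw [hc, map_zero, map_zero])
      map_add' := fun a b => (algebraMap Λ G).injective (by rw [hc, map_add, map_add, hc, hc]) }
  have h1 : IsAlgebraic L z := Algebra.IsAlgebraic.isAlgebraic z
  obtain ⟨p, hp0, hp⟩ := h1
  have h2 : IsAlgebraic Λ (ψ z) := by
    refine ⟨p.map g, (Polynomial.map_ne_zero_iff g.injective).2 hp0, ?_⟩
    have h3 := congrArg ψ hp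
    rw [map_zero] at h3
    rw [← h3, Polynomial.aeval_def, Polynomial.aeval_def, Polynomial.eval₂_map]
    change _ = ψ.toRingHom _
    rw [Polynomial.hom_eval₂]
    congr 1
    ext l
    exact hc l
  have h3 := IsAlgClosed.degree_eq_one_of_irreducible Λ (minpoly.irreducible h2.isIntegral)
  obtain ⟨e, he⟩ := minpoly.mem_range_of_degree_eq_one Λ _ h3
  exact hz e he

/-- **Varieties which are dominated by varieties fibred by curves of genus one.** -/
theorem EllFib.not_hyp {L : Type} [Field L] [Algebra ℂ L] (h : EllFib L) {M : ℕ}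
    {x : Fin (M + 1) → L} (hgen : coords ℂ x = ⊤) :
    ¬ GeomHyp1 ℂ x ∧ ¬ Bounded1 ℂ x := by
  obtain ⟨Λ, G, _, _, _, _, _, _, _, hFF, ψ, hrat, hU, z, hz⟩ := h
  have hΛ0 : CharZero Λ := charZero_of_injective_algebraMap (algebraMap ℂ Λ).injective
  let iLG : Algebra L G := ψ.toRingHom.toAlgebra
  have t1 : IsScalarTower ℂ L G := IsScalarTower.of_algebraMap_eq fun c => (ψ.commutes c).symm
  obtain ⟨i, j, hj, hij⟩ : ∃ i j, x j ≠ 0 ∧ ∀ c : Λ, algebraMap Λ G c ≠
      algebraMap L G (x i / x j) := by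
    by_contra hcon
    push Not at hcon
    have h1 : coords ℂ x ≤ ((⊥ : IntermediateField Λ G).restrictScalars ℂ).comap ψ := by
      unfold Pool.Agent.W602.GT.coords
      rw [IntermediateField.adjoin_le_iff]
      rintro w ⟨i, j, hj, rfl⟩
      obtain ⟨c, hc⟩ := hcon i j hj
      exact IntermediateField.mem_bot.2 ⟨c, hc⟩
    rw [hgen] at h1
    have h2 : z ∈ ((⊥ : IntermediateField Λ G).restrictScalars ℂ).comap ψ := h1 trivial
    obtain ⟨c, hc⟩ := IntermediateField.mem_bot.1 h2
    exact hz c hc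
  have hD := der_ne (k := Λ) (K := G)
  have key : ∀ R : MvPolynomial (Fin (M + 1)) ℂ, IsForm R → val x R ≠ 0 →
    ∃ (p : Fin (M + 1) → ℂ) (G : Type) (_ : Field G) (_ : Algebra ℂ G) (_ : IsFF ℂ G)
      (O : Place ℂ G) (σ : G →ₐ[ℂ] G) (d : ℕ) (f : Fin (M + 1) → G),
      EllMap x p G O σ d f i j ∧ val p R ≠ 0 := fun R hR hRx =>
    exists_ell (C := Λ) (F := G) hD (fun Q f hf0 hf => hno_of_uniq hrat hU hD Q f hf0 hf) hrat hj
      hij hR hRx
  exact ⟨not_geom_ell key, not_bdd_ell key⟩

end Pool.Agent.K4H62.EL
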