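import Pool.Agent.K4H62.EL.Geo2
import Pool.Agent.K4H62.IT.Fin
import Pool.Agent.R882.HPM

/-!
Pseudo-geometrically hyperbolic images of varieties which are fibred by curves.
-/

set_option autoImplicit false
set_option linter.overlappingInstances false
set_option linter.unusedSectionVars false
set_option maxHeartbeats 4000000
set_option synthInstance.maxHeartbeats 400000

open FF Module Pool.Agent Pool.Agent.W602.GT Pool.Agent.W603.LV
open Pool.Agent.W619.PQ (IsUniruled)
open Pool.Agent.R882.GL (SpanFib)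
open Pool.Agent.W602.RG (PseudoGeomHyp)
open Pool.Agent.R882.HY (PseudoBounded not_geom not_bdd rat_of_uniruled)

namespace Pool.Agent.K4H62.EL

open Pool.Agent.K4H25.MG Pool.Agent.K4H25.PC Pool.Agent.K4H62.IT

/-- maximal Kodaira dimension is general type -/
theorem general_of_kod {L : Type} [Field L] [Algebra ℂ L] {n : ℕ} (hn : Algebra.trdeg ℂ L = n)
    (h : KodGe ℂ L n (fun _ => False) n) : GeneralType ℂ L n := by
  obtain ⟨N, hN, ω, h1, D, hD, h2⟩ := h
  exact ⟨hn, N, hN, ω, fun j => (h1 j).1, fun P hP j => (h1 j).2.2 P hP (fun h => h), D, hD, h2⟩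

section

variable {K : Type} [Field K] [Algebra ℂ K] {n N q : ℕ} {β : Fin N → Fin q} {M : Fin q → ℕ}

/-- **The trichotomy.** -/
theorem trichotomy [Algebra.EssFiniteType ℂ K] (hK : Algebra.trdeg ℂ K = (n + 1 : ℕ))
    {t : Fin N → K}
    (hd : Algebra.trdeg ℂ (IntermediateField.adjoin ℂ (Set.range t)) = (n : ℕ))
    (hcl : ∀ g : K, IsAlgebraic (IntermediateField.adjoin ℂ (Set.range t)) g →
      g ∈ IntermediateField.adjoin ℂ (Set.range t))
    {J : Type} [Finite J] {ω : J → (Fin (n + 1) → Derivation ℂ K K) → K}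
    (hω : ∀ j, IsPluri 1 (ω j))
    (hspan : SpanFib (IntermediateField.adjoin ℂ (Set.range t)) ω)
    (L : Type) [Field L] [Algebra ℂ L] [Algebra L K] [IsScalarTower ℂ L K]
    [FiniteDimensional L K] {ι : Type} {G : ι → IntermediateField.adjoin L (Set.range t)}
    {c : K} (hc : c ∈ IntermediateField.adjoin ℂ (Set.range t)) (hc0 : c ≠ 0)
    (hreg0 : ∀ j (P : Place ℂ K), Divisorial (n + 1) P → RegAt P (fun D => c * ω j D))
    (hreg : ∀ j a (P : Place ℂ K), Divisorial (n + 1) P → RegAt P (fun D => (G a : K) * ω j D))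
    {x' : Fin N → IntermediateField.adjoin L (Set.range t)} (hx' : ∀ j, (x' j : K) = t j)
    (hG : SepSys β M x' G)
    (hm : ∀ Λ : Finset (Fin q), Λ.Nonempty → 2 * fdeg L β t Λ ≤ ∑ b ∈ Λ, M b + 1) :
    GeneralType ℂ L (n + 1) ∨ IsUniruled ℂ L (n + 1) ∨ EllFib L := by
  classical
  have hL : Algebra.trdeg ℂ L = (n + 1 : ℕ) := Pool.Agent.Y184.NT.trdeg_below (K := K) hK
  have hessL : Algebra.EssFiniteType ℂ L := Pool.Agent.TH466.QG.ess_below (K := K)
  have hleB : IntermediateField.adjoin ℂ (Set.range t) ≤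
      (IntermediateField.adjoin L (Set.range t)).restrictScalars ℂ := by
    rw [IntermediateField.adjoin_le_iff]
    exact IntermediateField.subset_adjoin L _
  have hωc : ∀ j, IsPluri 1 (fun D => c * ω j D) := by
    intro j A D
    have h1 := hω j A D
    change c * ω j _ = _
    rw [h1]
    ring
  rcases gt_or_prop hK hd hcl hω L hreg hx' hG hm with h3 | h3
  · left
    exact general_of_kod hL (Pool.Agent.R882.KR.kodGe_of_tr h3)
  right
  obtain ⟨E', hE'⟩ : ∃ E' : IntermediateField (IntermediateField.adjoin ℂ (Set.range t)) K,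
      E' = IntermediateField.extendScalars hleB := ⟨_, rfl⟩
  have hE'r : E'.restrictScalars ℂ =
      (IntermediateField.adjoin L (Set.range t)).restrictScalars ℂ := by
    rw [hE']
    exact IntermediateField.extendScalars_restrictScalars hleB
  have hmemE' : ∀ z : K, z ∈ E' ↔ z ∈ IntermediateField.adjoin L (Set.range t) := by
    intro z
    rw [hE']
    exact Iff.rfl
  have hfinE : FiniteDimensional E' K := by
    have h1 : FiniteDimensional (IntermediateField.adjoin L (Set.range t)) K := inferInstance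
    rw [hE']
    exact h1
  have key : IsUniruled ℂ (E'.restrictScalars ℂ) (n + 1) ∨ EllFib (E'.restrictScalars ℂ) := by
    refine prop_geo2 hK _ hd hcl E' (fun j D => c * ω j D) hωc hreg0 (span_smul hspan hc hc0)
      (fun D0 Ef hEf => ?_)
    obtain ⟨h0, hh0⟩ : ∃ h0 : IntermediateField.adjoin L (Set.range t), ∀ j,
      ∃ b ∈ IntermediateField.adjoin ℂ (Set.range t),
        ((Algebra.trace (IntermediateField.adjoin L (Set.range t)) K (ω j Ef) :
          IntermediateField.adjoin L (Set.range t)) : K) = b * (h0 : K) := by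
      have hc : ∀ (X : IntermediateField ℂ K) (hX : X =
          (IntermediateField.adjoin L (Set.range t)).restrictScalars ℂ)
          (D0 : Fin (n + 1) → Derivation ℂ X X),
          (∀ i (z : X), Ef i (z : K) = ((D0 i z : X) : K)) →
          ∃ h0 : IntermediateField.adjoin L (Set.range t), ∀ j,
            ∃ b ∈ IntermediateField.adjoin ℂ (Set.range t),
              ((Algebra.trace (IntermediateField.adjoin L (Set.range t)) K (ω j Ef) :
                IntermediateField.adjoin L (Set.range t)) : K) = b * (h0 : K) := by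
        intro X hX D0 hD0
        subst hX
        exact h3 Ef D0 hD0
      exact hc _ hE'r D0 hEf
    refine ⟨⟨(h0 : K), (hmemE' _).2 h0.2⟩, fun j => ?_⟩
    obtain ⟨b, hb, hbj⟩ := hh0 j
    refine ⟨⟨c * b, mul_mem hc hb⟩, ?_⟩
    have h4 : Algebra.trace E' K (c * ω j Ef) = (⟨c, (hmemE' _).2 (hleB hc)⟩ : E') *
        Algebra.trace E' K (ω j Ef) := by
      have h5 : c * ω j Ef = (⟨c, (hmemE' _).2 (hleB hc)⟩ : E') • ω j Ef := rfl
      rw [h5, map_smul, smul_eq_mul]
    change Algebra.trace E' K (c * ω j Ef) = _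
    rw [h4]
    apply Subtype.ext
    change c * ((Algebra.trace E' K (ω j Ef) : E') : K) = (c * b) * (h0 : K)
    rw [mul_assoc, ← hbj]
    congr 1
    subst hE'
    rfl
  rw [hE'r] at key
  obtain ⟨R, hR⟩ : ∃ R : IntermediateField ℂ K,
    R = (IntermediateField.adjoin L (Set.range t)).restrictScalars ℂ := ⟨_, rfl⟩
  rw [← hR] at key
  have hLR : ∀ g : L, algebraMap L K g ∈ R := fun g => by
    rw [hR]
    exact (IntermediateField.adjoin L (Set.range t)).algebraMap_mem g
  let φ : L →ₐ[ℂ] R :=
    { toFun := fun g => ⟨algebraMap L K g, hLR g⟩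
      map_one' := Subtype.ext (map_one _)
      map_mul' := fun a b => Subtype.ext (map_mul _ _ _)
      map_zero' := Subtype.ext (map_zero _)
      map_add' := fun a b => Subtype.ext (map_add _ _ _)
      commutes' := fun c => Subtype.ext (IsScalarTower.algebraMap_apply ℂ L K c).symm }
  rcases key with huni | hell
  · left
    obtain ⟨C, i1, i2, hC, htr, ⟨χ⟩⟩ := huni
    exact ⟨C, i1, i2, hC, htr, ⟨χ.comp φ⟩⟩
  · right
    let iL : Algebra L R := φ.toRingHom.toAlgebra
    have t1 : IsScalarTower ℂ L R := IsScalarTower.of_algebraMap_eq fun c => (φ.commutes c).symm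
    have t2 : IsScalarTower L R K := IsScalarTower.of_algebraMap_eq fun c => rfl
    have halg : Algebra.IsAlgebraic L R := by
      have h1 : Algebra.IsAlgebraic L K := inferInstance
      exact Algebra.IsAlgebraic.tower_bot L R K
    exact hell.down

end

/-- the consequences of the trichotomy -/
theorem hyp_of_trichotomy {L : Type} [Field L] [Algebra ℂ L] {n M : ℕ} {x : Fin (M + 1) → L}
    (hL : Algebra.trdeg ℂ L = n)
    (h : GeneralType ℂ L n ∨ IsUniruled ℂ L n ∨ EllFib L) (hx : x ≠ 0) (hgen : coords ℂ x = ⊤) :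
    (GeomHyp1 ℂ x → GeneralType ℂ L n) ∧ (Bounded1 ℂ x → GeneralType ℂ L n) := by
  refine ⟨fun h1 => ?_, fun h1 => ?_⟩
  · rcases h with hg | hU | hE
    · exact hg
    · exact absurd h1 (not_geom_rat fun _ hG hGx => rat_of_uniruled hL hU hx hgen hG hGx)
    · exact absurd h1 (hE.not_hyp hgen).1
  · rcases h with hg | hU | hE
    · exact hg
    · exact absurd h1 (not_bdd_rat fun _ hG hGx => rat_of_uniruled hL hU hx hgen hG hGx)
    · exact absurd h1 (hE.not_hyp hgen).2

end Pool.Agent.K4H62.EL
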