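import Pool.Agent.K4H62.EL.Aff

/-!
Cubic curves: existence of the model, and the multiplication by `-2`.
-/

set_option autoImplicit false
set_option linter.overlappingInstances false
set_option linter.unusedSectionVars false
set_option maxHeartbeats 4000000
set_option synthInstance.maxHeartbeats 400000

open FF IntermediateField

namespace Pool.Agent.K4H62.EL

open Pool.Agent.W603.LV Pool.Agent.W619.PQ Pool.Agent.K4H62.IT
open Pool.Agent.W603.PV (hgt_eq_finrank hgt_algebraMap)

section

variable {k F : Type*} [Field k] [Field F] [Algebra k F] [CharZero k] [IsFF k F] [IsAlgClosed k]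

/-- the orders at a pole of `x` -/
theorem ord_eqn {P : Place k F} {x y : F} {a b : k}
    (h : y ^ 2 = x ^ 3 + algebraMap k F a * x + algebraMap k F b) (hx : P.ord x < 0) :
    2 * P.ord y = 3 * P.ord x := by
  obtain ⟨p, hp⟩ : ∃ p : Polynomial k, p = Polynomial.X ^ 3 + Polynomial.C a * Polynomial.X +
    Polynomial.C b := ⟨_, rfl⟩
  have hdeg : p.natDegree = 3 := by
    rw [hp]
    compute_degree!
  have hp0 : p ≠ 0 := by
    intro h0
    rw [h0, Polynomial.natDegree_zero] at hdeg
    omega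
  have h1 : Polynomial.aeval x p = y ^ 2 := by
    rw [h, hp]
    simp
  have h2 := (ord_aeval_of_neg P hx hp0).2
  rw [h1, P.ord_pow, hdeg] at h2
  exact_mod_cast h2

/-- the place at infinity -/
theorem unique_pole {x y : F} (hx : Transcendental k x) {a b : k}
    (h : y ^ 2 = x ^ 3 + algebraMap k F a * x + algebraMap k F b)
    (hfin : Module.finrank k⟮x⟯ F ≤ 2) :
    ∃ O : Place k F, O.ord x = -2 ∧ O.ord y = -3 ∧ ∀ P : Place k F, P ≠ O → 0 ≤ P.ord x := by
  classical
  have hfd := IsFF.finite hx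
  obtain ⟨T, hT, hT2⟩ := poles (k := k) (K := F) hx
  have hpos : 0 < Module.finrank k⟮x⟯ F := Module.finrank_pos
  have hT3 : ∀ P ∈ T, 2 ≤ (-P.ord x).toNat * P.deg := by
    intro P hP
    have h1 := (hT P).1 hP
    have h2 := ord_eqn h h1
    rw [deg_one, mul_one]
    omega
  have hne : T.Nonempty := by
    rw [Finset.nonempty_iff_ne_empty]
    rintro rfl
    rw [Finset.sum_empty] at hT2
    omega
  have hcard : T.card * 2 ≤ Module.finrank k⟮x⟯ F := by
    rw [← hT2]
    exact Finset.card_nsmul_le_sum _ _ _ hT3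
  have hone : T.card = 1 := by
    have := Finset.card_pos.2 hne
    omega
  obtain ⟨O, hO⟩ := Finset.card_eq_one.1 hone
  have hOT : O ∈ T := by rw [hO]; exact Finset.mem_singleton_self _
  have h1 := (hT O).1 hOT
  have h2 := ord_eqn h h1
  rw [hO, Finset.sum_singleton, deg_one, mul_one] at hT2
  refine ⟨O, by omega, by omega, fun P hP => ?_⟩
  by_contra hcon
  push Not at hcon
  have h3 := (hT P).2 hcon
  rw [hO, Finset.mem_singleton] at h3
  exact hP h3

/-- the tangent -/
theorem tangent {G : Type*} [Field G] {a b X Y l : G} (h2 : 2 * Y * l = 3 * X ^ 2 + a)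
    (hE : Y ^ 2 = X ^ 3 + a * X + b) :
    (l * (l ^ 2 - 3 * X) + Y) ^ 2 = (l ^ 2 - 2 * X) ^ 3 + a * (l ^ 2 - 2 * X) + b := by
  linear_combination (l ^ 2 - 3 * X) * h2 + hE

end

section

variable {k : Type} [Field k] [IsAlgClosed k] [CharZero k]

/-- **Existence of the model.** -/
theorem exists_model (a b : k) (hdisc : 4 * a ^ 3 + 27 * b ^ 2 ≠ 0) :
    ∃ (G : Type) (_ : Field G) (_ : Algebra k G) (_ : IsFF k G) (O : Place k G) (X Y : G),
      Weier O a b X Y := by
  classical
  obtain ⟨Ω, _, _, _, X0, hX0⟩ : ∃ (Ω : Type) (_ : Field Ω) (_ : Algebra k Ω)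
      (_ : IsAlgClosed Ω) (X0 : Ω), Transcendental k X0 := by
    refine ⟨AlgebraicClosure (RatFunc k), inferInstance, inferInstance, inferInstance,
      algebraMap (RatFunc k) _ RatFunc.X, ?_⟩
    have h1 : Transcendental k (RatFunc.X : RatFunc k) := RatFunc.transcendental_X
    exact (transcendental_algebraMap_iff
      (algebraMap (RatFunc k) (AlgebraicClosure (RatFunc k))).injective).2 h1
  obtain ⟨Y0, hY0⟩ := IsAlgClosed.exists_pow_nat_eq (X0 ^ 3 + algebraMap k Ω a * X0 +
    algebraMap k Ω b) (n := 2) (by norm_num)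
  obtain ⟨G, hG⟩ : ∃ G : IntermediateField k Ω, G = IntermediateField.adjoin k {X0, Y0} :=
    ⟨_, rfl⟩
  have hXG : X0 ∈ G := by
    rw [hG]
    exact IntermediateField.subset_adjoin _ _ (by simp)
  have hYG : Y0 ∈ G := by
    rw [hG]
    exact IntermediateField.subset_adjoin _ _ (by simp)
  obtain ⟨X, hX⟩ : ∃ X : G, (X : Ω) = X0 := ⟨⟨X0, hXG⟩, rfl⟩
  obtain ⟨Y, hY⟩ : ∃ Y : G, (Y : Ω) = Y0 := ⟨⟨Y0, hYG⟩, rfl⟩
  have heq : Y ^ 2 = X ^ 3 + algebraMap k G a * X + algebraMap k G b := by
    apply Subtype.ext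
    push_cast
    rw [hX, hY, hY0]
  have hXt : Transcendental k X := by
    intro h
    apply hX0
    rw [← hX]
    exact (isAlgebraic_algebraMap_iff (R := k) (algebraMap G Ω).injective).2 h
  have hgen : IntermediateField.adjoin k {X, Y} = ⊤ := by
    have h1 : (IntermediateField.adjoin k {X, Y}).map G.val = (⊤ : IntermediateField k G).map
        G.val := by
      rw [IntermediateField.adjoin_map, ← AlgHom.fieldRange_eq_map,
        IntermediateField.fieldRange_val, Set.image_pair]
      change IntermediateField.adjoin k {(X : Ω), (Y : Ω)} = G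
      rw [hX, hY, hG]
    exact IntermediateField.map_injective _ h1
  -- the degree over `k(X)`
  have hYint : IsIntegral k⟮X⟯ Y := by
    have hmem : Y ^ 2 ∈ k⟮X⟯ := by
      rw [heq]
      have hXm := mem_adjoin_simple_self k X
      exact add_mem (add_mem (pow_mem hXm 3) (mul_mem (k⟮X⟯.algebraMap_mem _) hXm))
        (k⟮X⟯.algebraMap_mem _)
    refine ⟨Polynomial.X ^ 2 - Polynomial.C ⟨Y ^ 2, hmem⟩,
      Polynomial.monic_X_pow_sub_C _ two_ne_zero, ?_⟩
    simp
  have htop : (k⟮X⟯)⟮Y⟯ = ⊤ := by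
    apply IntermediateField.restrictScalars_injective k
    rw [IntermediateField.restrictScalars_top, ← hgen,
      IntermediateField.adjoin_simple_adjoin_simple]
  have hfd : FiniteDimensional k⟮X⟯ G := by
    have h1 : FiniteDimensional k⟮X⟯ (k⟮X⟯)⟮Y⟯ := IntermediateField.adjoin.finiteDimensional hYint
    rw [htop] at h1
    exact IntermediateField.topEquiv.toLinearEquiv.finiteDimensional
  have hFF : IsFF k G := IsFF.of_finite hXt hfd
  have hle : Module.finrank k⟮X⟯ G ≤ 2 := by
    have h1 : Module.finrank k⟮X⟯ (k⟮X⟯)⟮Y⟯ = Module.finrank k⟮X⟯ G := by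
      rw [htop]
      exact IntermediateField.finrank_top'
    rw [← h1, IntermediateField.adjoin.finrank hYint]
    have hmem : Y ^ 2 ∈ k⟮X⟯ := by
      rw [heq]
      have hXm := mem_adjoin_simple_self k X
      exact add_mem (add_mem (pow_mem hXm 3) (mul_mem (k⟮X⟯.algebraMap_mem _) hXm))
        (k⟮X⟯.algebraMap_mem _)
    have hmon : (Polynomial.X ^ 2 - Polynomial.C (⟨Y ^ 2, hmem⟩ : k⟮X⟯)).Monic :=
      Polynomial.monic_X_pow_sub_C _ two_ne_zero
    have h2 := minpoly.min k⟮X⟯ Y hmon (by simp)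
    have h3 := Polynomial.natDegree_le_natDegree h2
    rwa [Polynomial.natDegree_X_pow_sub_C] at h3
  obtain ⟨O, hO1, hO2, hO3⟩ := unique_pole hXt heq hle
  refine ⟨G, inferInstance, inferInstance, hFF, O, X, Y, hO1, hO2, hO3, fun P hP => ?_, heq, hgen,
    hdisc⟩
  by_contra hcon
  push Not at hcon
  have h1 := hO3 P hP
  have h2 : P.ord (Y ^ 2) < 0 := by
    rw [P.ord_pow]
    push_cast
    linarith
  have hX0' : X ≠ 0 := by
    rintro rfl
    rw [O.ord_zero] at hO1
    omega
  have h3 : Ge P 0 (Y ^ 2) := by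
    rw [heq]
    have h4 : Ge P 0 X := Or.inr h1
    have h5 := ((h4.pow 3).mono (by simp : (0 : ℤ) ≤ _)).add
      (((Ge.const (P := P) a).mul h4).mono (by simp : (0 : ℤ) ≤ _))
    exact h5.add (Ge.const b)
  rcases h3 with h4 | h4
  · rw [h4, P.ord_zero] at h2
    omega
  · omega

end

section

variable {k F L : Type*} [Field k] [Field F] [Field L] [Algebra k F] [Algebra k L] [Algebra F L]
  [IsScalarTower k F L] [CharZero k] [IsFF k F] [IsFF k L] [IsAlgClosed k]

/-- the restriction of a place -/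
theorem restrict_place {O : Place k F} {O' : Place k L} {x : F}
    (hu : ∀ P : Place k F, P ≠ O → 0 ≤ P.ord x) (hx : O'.ord (algebraMap F L x) < 0) :
    ∃ e : ℕ, 0 < e ∧ ∀ g : F, O'.ord (algebraMap F L g) = e * O.ord g := by
  obtain ⟨e, q, hq⟩ := exists_over (K := F) O' ⟨x, by omega⟩
  have h1 : q.ord x < 0 := by
    have h2 := hq.2 x
    have h3 := hq.1
    by_contra hcon
    push Not at hcon
    have h4 : (0 : ℤ) ≤ e * q.ord x := by positivity
    omega
  have h2 : q = O := by
    by_contra hne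
    have := hu q hne
    omega
  subst h2
  exact ⟨e, hq.1, hq.2⟩

end

section

variable {k G : Type*} [Field k] [Field G] [Algebra k G] [CharZero k] [IsFF k G] [IsAlgClosed k]

theorem restrict_self (σ : G →ₐ[k] G) {O : Place k G} {x : G}
    (hu : ∀ P : Place k G, P ≠ O → 0 ≤ P.ord x) (hx : O.ord (σ x) < 0) :
    ∃ e : ℕ, 0 < e ∧ ∀ g : G, O.ord (σ g) = e * O.ord g := by
  letI iG : Algebra G G := σ.toRingHom.toAlgebra
  have hT : @IsScalarTower k G G _ iG.toSMul _ :=
    IsScalarTower.of_algebraMap_eq fun c => (σ.commutes c).symm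
  exact @restrict_place k G G _ _ _ _ _ iG hT _ _ _ _ O O x hu hx

theorem hgt_self (σ : G →ₐ[k] G) : ∃ d : ℕ, ∀ g : G, hgt k (σ g) = d * hgt k g := by
  letI iG : Algebra G G := σ.toRingHom.toAlgebra
  have hT : @IsScalarTower k G G _ iG.toSMul _ :=
    IsScalarTower.of_algebraMap_eq fun c => (σ.commutes c).symm
  exact ⟨@Module.finrank G G _ _ iG.toModule, fun g =>
    @hgt_algebraMap k _ G _ _ G _ _ iG hT _ _ _ _ g⟩

end

end Pool.Agent.K4H62.EL
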