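import Pool.Agent.K4H62.IT.Curve

/-!
Curves with only one regular differential: functions with one pole.
-/

set_option autoImplicit false
set_option linter.overlappingInstances false
set_option linter.unusedSectionVars false
set_option maxHeartbeats 4000000
set_option synthInstance.maxHeartbeats 400000

open Polynomial FF IsDedekindDomain IntermediateField

namespace Pool.Agent.K4H62.EL

open Pool.Agent.W603.LV Pool.Agent.W619.PQ Pool.Agent.K4H25.PC Pool.Agent.K4H62.IT

section

variable {k F : Type*} [Field k] [Field F] [Algebra k F] [CharZero k] [IsFF k F] [IsAlgClosed k]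

/-- functions whose poles over the poles of `x` are of order less than `n` and at `P0` -/
def BN (x : F) (P0 : Place k F) (n : ℕ) [DecidableEq (Place k F)] : Submodule k F where
  carrier := {y | ∀ P : Place k F, P.ord x < 0 → Ge P (if P = P0 then 1 - (n : ℤ) else 0) y}
  add_mem' := fun ha hb P hP => (ha P hP).add (hb P hP)
  zero_mem' := fun P _ => Ge.zero
  smul_mem' := by
    intro c y hy P hP
    rw [Algebra.smul_def]
    simpa using (Ge.const (P := P) c).mul (hy P hP)

/-- If the regular differentials do not vanish at `P0` then there are functions with a single pole at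
`P0`, of any order `n ≥ 2`. -/
theorem exists_pole {D : Derivation k F F} (hD : D ≠ 0) (P0 : Place k F)
    (hno : ∀ f : F, f ≠ 0 → (∀ P : Place k F, vo P D ≤ P.ord f) → P0.ord f = vo P0 D) {n : ℕ}
    (hn : 2 ≤ n) :
    ∃ b : F, b ≠ 0 ∧ P0.ord b = -(n : ℤ) ∧ ∀ Q : Place k F, Q ≠ P0 → 0 ≤ Q.ord b := by
  classical
  obtain ⟨x, hxS⟩ := exists_simple_poles ({P0} : Finset (Place k F))
  have hxP0 := hxS P0 (Finset.mem_singleton_self _)
  have hx : Transcendental k x := P0.transcendental_of_ord_ne (by omega)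
  have hDx := der_ne_zero hD hx
  have hfs := finite_support (k := k) x
  obtain ⟨Z, hZ⟩ : ∃ Z : Finset (Place k F), Z = hfs.toFinset.filter fun w => w.ord x < 0 :=
    ⟨_, rfl⟩
  have hmemZ : ∀ w, w ∈ Z ↔ w.ord x < 0 := by
    intro w
    rw [hZ, Finset.mem_filter, hfs.mem_toFinset]
    refine ⟨fun h => h.2, fun h => ⟨?_, h⟩⟩
    show w.ord x ≠ 0
    omega
  obtain ⟨π, hπ0, hπ⟩ := P0.surj
  obtain ⟨y, hy1, hy2⟩ := approx_one (Z.erase P0) P0 (by simp) (π⁻¹ ^ n) 0
  have hπi : P0.ord (π⁻¹ ^ n) = -(n : ℤ) := by rw [P0.ord_pow, P0.ord_inv, hπ]; ring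
  have hπn : π⁻¹ ^ n ≠ 0 := pow_ne_zero _ (inv_ne_zero hπ0)
  have hn' : (0 : ℤ) < n := by omega
  have hyQ : ∀ Q : Place k F, Q ≠ P0 → Q.ord x < 0 → Ge Q 0 y := fun Q hQ hQx =>
    hy2 Q (Finset.mem_erase.2 ⟨hQ, (hmemZ Q).2 hQx⟩)
  by_cases hmem : y ∈ BB (k := k) x ⊔ BN x P0 n
  · obtain ⟨b, hb, c, hc, hbc⟩ := Submodule.mem_sup.1 hmem
    -- the order of b at P0
    have h1 : Ge P0 (1 - (n : ℤ)) (b - π⁻¹ ^ n) := by
      have e : b - π⁻¹ ^ n = (y - π⁻¹ ^ n) - c := by rw [← hbc]; ring
      have h2 := hc P0 (by omega)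
      rw [if_pos rfl] at h2
      rw [e]
      exact (hy1.mono (by omega)).sub h2
    have h2 : b ≠ 0 ∧ P0.ord b = -(n : ℤ) := by
      by_cases h3 : b - π⁻¹ ^ n = 0
      · rw [sub_eq_zero.1 h3]
        exact ⟨hπn, hπi⟩
      · have h4 := h1.resolve_left h3
        have h5 := P0.ord_add_eq (f := π⁻¹ ^ n) (g := b - π⁻¹ ^ n) hπn h3 (by omega)
        rwa [add_sub_cancel, hπi] at h5
    refine ⟨b, h2.1, h2.2, fun Q hQP => ?_⟩
    rcases lt_or_ge (Q.ord x) 0 with hQx | hQx
    · have e : b = y - c := by rw [← hbc]; ring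
      have h4 := hc Q hQx
      rw [if_neg hQP] at h4
      have h5 : Ge Q 0 b := by
        rw [e]
        exact (hyQ Q hQP hQx).sub h4
      exact h5.resolve_left h2.1
    · exact (hb Q hQx).resolve_left h2.1
  exfalso
  obtain ⟨lam, hlam, hle⟩ := Submodule.exists_le_ker_of_notMem hmem
  have hB : ∀ y ∈ BB (k := k) x, lam y = 0 := fun y hy => hle (Submodule.mem_sup_left hy)
  have hN : ∀ y ∈ BN x P0 n, lam y = 0 := fun y hy => hle (Submodule.mem_sup_right hy)
  have hS : ∀ y ∈ BS x {P0}, lam y = 0 := by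
    intro y hy
    apply hN
    intro P hP
    refine (hy P hP).mono ?_
    by_cases h : P = P0
    · rw [if_pos h, if_pos (Finset.mem_singleton.2 h)]
      omega
    · rw [if_neg h, if_neg (fun h' => h (Finset.mem_singleton.1 h'))]
  have hI : ∀ y ∈ BI (k := k) x, lam y = 0 := by
    intro y hy
    apply hS
    intro P hP
    refine (hy P hP).mono ?_
    split_ifs <;> omega
  have hlam0 : lam ≠ 0 := by
    rintro rfl
    exact hlam rfl
  obtain ⟨f, hf0, hf⟩ := exists_mult lam hI hx hB hlam0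
  have hx0 : x ≠ 0 := hxP0.1
  have hD' : (((D x)⁻¹ • D : Derivation k F F)) x = 1 := by simp [hDx]
  have hDi : ((D x)⁻¹ • D : Derivation k F F) ≠ 0 := by
    intro h
    rw [h] at hD'
    simp at hD'
  have hregf := mult_regular hx ((D x)⁻¹ • D) hD' lam hI hB hf0 hf
  have hvo : ∀ P : Place k F, P.ord x < 0 → vo P ((D x)⁻¹ • D : Derivation k F F) =
      1 - P.ord x := by
    intro P hP
    have h1 := (ord_der P hDi (f := x) (by omega)).2
    rw [hD', P.ord_one] at h1
    omega
  have hvD : ∀ P : Place k F, vo P ((D x)⁻¹ • D : Derivation k F F) =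
      - P.ord (D x) + vo P D := by
    intro P
    rw [vo_smul P hD (inv_ne_zero hDx), P.ord_inv]
  have h1 := mult_vanish hx {P0} lam hI hS hf0 hf (Finset.mem_singleton_self P0)
    (by omega : P0.ord x < 0)
  rw [P0.ord_mul hx0 hf0] at h1
  have h2 := hvo P0 (by omega)
  rw [hvD] at h2
  have h3 := hno (f * D x) (mul_ne_zero hf0 hDx) (fun P => by
    have h1 := hregf P
    rw [hvD] at h1
    rw [P.ord_mul hf0 hDx]
    omega)
  rw [P0.ord_mul hf0 hDx] at h3
  omega

end

end Pool.Agent.K4H62.EL
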