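import Pool.Agent.K4H62.EL.Basis
import Pool.Agent.R882.HR

/-!
Specialization of maps from cubic curves.
-/

set_option autoImplicit false
set_option linter.overlappingInstances false
set_option linter.unusedSectionVars false
set_option maxHeartbeats 4000000
set_option synthInstance.maxHeartbeats 400000

open FF IntermediateField

namespace Pool.Agent.K4H62.EL

open Pool.Agent.W603.LV Pool.Agent.W619.PQ Pool.Agent.K4H62.IT
open Pool.Agent.W602.GT (val IsForm specialise)

/-- the substitution commutes with the evaluation of polynomials -/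
theorem bi_aeval {k E G : Type} [Field k] [Field E] [Algebra k E] [Field G] [Algebra E G]
    [Algebra k G] [IsScalarTower k E G] {M : ℕ} (x y : G)
    (g : Fin (M + 1) → Polynomial (Polynomial E)) (H : MvPolynomial (Fin (M + 1)) k) :
    bi x y (MvPolynomial.aeval g H) = MvPolynomial.aeval (fun i => bi (R := E) x y (g i)) H := by
  have h1 : ((bi (R := E) x y).restrictScalars k).comp (MvPolynomial.aeval g) =
      MvPolynomial.aeval fun i => bi (R := E) x y (g i) := by
    apply MvPolynomial.algHom_ext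
    intro i
    rw [AlgHom.comp_apply, MvPolynomial.aeval_X, MvPolynomial.aeval_X]
    rfl
  exact DFunLike.congr_fun h1 H

/-- **Specialization.** -/
theorem spec {k : Type} [Field k] [IsAlgClosed k] {C : Type} [Field C] [Algebra k C]
    {F : Type} [Field F] [Algebra C F] [Algebra k F] [IsScalarTower k C F] [CharZero C]
    [IsAlgClosed C] [IsFF C F] {Q : Place C F} {a b : C} {X Y : F} (hW : Weier Q a b X Y)
    {M N : ℕ} (c : Fin (M + 1) → Fin (N + 1) → C) (hc1 : ∀ i, ∀ n : Fin (N + 1), (n : ℕ) = 1 → c i n = 0)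
    {R : MvPolynomial (Fin (M + 1)) k} (hR : val (fun i => c i (Fin.last N)) R ≠ 0)
    {i j : Fin (M + 1)} {n n' : Fin (N + 1)} (hm : c i n * c j n' ≠ c j n * c i n') :
    ∃ (a0 b0 : k) (c0 : Fin (M + 1) → Fin (N + 1) → k), 4 * a0 ^ 3 + 27 * b0 ^ 2 ≠ 0 ∧
      (∀ i, ∀ n : Fin (N + 1), (n : ℕ) = 1 → c0 i n = 0) ∧ val (fun i => c0 i (Fin.last N)) R ≠ 0 ∧
      c0 i n * c0 j n' ≠ c0 j n * c0 i n' ∧
      ∀ H : MvPolynomial (Fin (M + 1)) k,
        val (fun i => ∑ n : Fin (N + 1), algebraMap C F (c i n) * ef C X Y n) H = 0 →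
        ∀ (G : Type) [Field G] [Algebra k G] (x y : G),
          y ^ 2 = x ^ 3 + algebraMap k G a0 * x + algebraMap k G b0 →
          val (fun i => ∑ n : Fin (N + 1), algebraMap k G (c0 i n) * ef k x y n) H = 0 := by
  classical
  let σ : Type := (Fin (M + 1) × Fin (N + 1)) ⊕ Fin 2
  let RA : Type := MvPolynomial σ k
  let GA : Fin (M + 1) → Polynomial (Polynomial RA) := fun i =>
    ∑ n : Fin (N + 1), Polynomial.C (Polynomial.C (MvPolynomial.X (Sum.inl (i, n)))) * eb RA n
  let aA : RA := MvPolynomial.X (Sum.inr 0)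
  let bA : RA := MvPolynomial.X (Sum.inr 1)
  let mp : ∀ (A : Type) [Field A] [Algebra k A] (u : σ → A),
      Polynomial (Polynomial RA) →ₐ[k] Polynomial (Polynomial A) := fun A _ _ u =>
    Polynomial.mapAlgHom (Polynomial.mapAlgHom (MvPolynomial.aeval u))
  have hmpmap : ∀ (A : Type) [Field A] [Algebra k A] (u : σ → A) (p : Polynomial (Polynomial RA)),
      mp A u p = p.map (Polynomial.mapRingHom (MvPolynomial.aeval u : RA →ₐ[k] A).toRingHom) := by
    intro A _ _ u p
    rfl
  have hG : ∀ (A : Type) [Field A] [Algebra k A] (u : σ → A) (i : Fin (M + 1)),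
      mp A u (GA i) = ∑ n : Fin (N + 1), Polynomial.C (Polynomial.C (u (Sum.inl (i, n)))) *
        eb A n := by
    intro A _ _ u i
    simp only [GA]
    rw [map_sum]
    refine Finset.sum_congr rfl fun n _ => ?_
    rw [map_mul]
    congr 1
    · rw [hmpmap, Polynomial.map_C]
      simp
    · rw [hmpmap]
      exact eb_map _ _
  have hco : ∀ (A : Type) [Field A] [Algebra k A] (u : σ → A) (p : Polynomial (Polynomial RA))
      (s t : ℕ), ((mp A u p).coeff s).coeff t = MvPolynomial.aeval u ((p.coeff s).coeff t) := by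
    intro A _ _ u p s t
    rw [hmpmap, Polynomial.coeff_map, Polynomial.coe_mapRingHom, Polynomial.coeff_map]
    rfl
  have hcomp : ∀ (A : Type) [Field A] [Algebra k A] (u : σ → A)
      (H : MvPolynomial (Fin (M + 1)) k), mp A u (MvPolynomial.aeval GA H) =
        MvPolynomial.aeval (fun i => mp A u (GA i)) H := by
    intro A _ _ u H
    have h1 : (mp A u).comp (MvPolynomial.aeval GA) =
        MvPolynomial.aeval (fun i => mp A u (GA i)) := by
      apply MvPolynomial.algHom_ext
      intro i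
      rw [AlgHom.comp_apply, MvPolynomial.aeval_X, MvPolynomial.aeval_X]
    exact DFunLike.congr_fun h1 H
  have hbi : ∀ (A : Type) [Field A] [Algebra k A] (u : σ → A) (G : Type) [Field G] [Algebra A G]
      [Algebra k G] [IsScalarTower k A G] (x y : G) (H : MvPolynomial (Fin (M + 1)) k),
      bi x y (mp A u (MvPolynomial.aeval GA H)) =
        val (fun i => ∑ n : Fin (N + 1), algebraMap A G (u (Sum.inl (i, n))) * ef A x y n) H := by
    intro A _ _ u G _ _ _ _ x y H
    rw [hcomp, bi_aeval]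
    unfold Pool.Agent.W602.GT.val
    congr 2
    funext i
    rw [hG, map_sum]
    refine Finset.sum_congr rfl fun n _ => ?_
    rw [map_mul, bi_C, Polynomial.aeval_C]
    rfl
  have hmod : ∀ (A : Type) [Field A] [Algebra k A] (u : σ → A) (p : Polynomial (Polynomial RA)),
      mp A u (p %ₘ wp aA bA) = mp A u p %ₘ wp (u (Sum.inr 0)) (u (Sum.inr 1)) := by
    intro A _ _ u p
    rw [hmpmap, hmpmap, Polynomial.map_modByMonic _ (wp_monic aA bA)]
    congr 1
    rw [wp_map]
    have h1 : (MvPolynomial.aeval u : RA →ₐ[k] A).toRingHom aA = u (Sum.inr 0) :=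
      MvPolynomial.aeval_X u _
    have h2 : (MvPolynomial.aeval u : RA →ₐ[k] A).toRingHom bA = u (Sum.inr 1) :=
      MvPolynomial.aeval_X u _
    rw [h1, h2]
  -- the generic point
  let z : σ → C := Sum.elim (fun q => c q.1 q.2) (fun t => if t = 0 then a else b)
  have hz1 : ∀ i n, z (Sum.inl (i, n)) = c i n := fun _ _ => rfl
  have hza : z (Sum.inr 0) = a := rfl
  have hzb : z (Sum.inr 1) = b := rfl
  obtain ⟨W, hWd⟩ : ∃ W : RA, W = (4 * aA ^ 3 + 27 * bA ^ 2) *
    (MvPolynomial.aeval (fun i => (MvPolynomial.X (Sum.inl (i, Fin.last N)) : RA)) R *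
      (MvPolynomial.X (Sum.inl (i, n)) * MvPolynomial.X (Sum.inl (j, n')) -
        MvPolynomial.X (Sum.inl (j, n)) * MvPolynomial.X (Sum.inl (i, n')))) := ⟨_, rfl⟩
  have hWu : ∀ (A : Type) [Field A] [Algebra k A] (u : σ → A), MvPolynomial.aeval u W =
      (4 * u (Sum.inr 0) ^ 3 + 27 * u (Sum.inr 1) ^ 2) *
        (val (fun i => u (Sum.inl (i, Fin.last N))) R *
          (u (Sum.inl (i, n)) * u (Sum.inl (j, n')) - u (Sum.inl (j, n)) * u (Sum.inl (i, n')))) := by
    intro A _ _ u
    have h1 : MvPolynomial.aeval u (MvPolynomial.aeval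
        (fun i => (MvPolynomial.X (Sum.inl (i, Fin.last N)) : RA)) R) =
        val (fun i => u (Sum.inl (i, Fin.last N))) R := by
      have h2 : (MvPolynomial.aeval u : RA →ₐ[k] A).comp (MvPolynomial.aeval
          (fun i => (MvPolynomial.X (Sum.inl (i, Fin.last N)) : RA))) =
          MvPolynomial.aeval (fun i : Fin (M + 1) => u (Sum.inl (i, Fin.last N))) := by
        apply MvPolynomial.algHom_ext
        intro i
        rw [AlgHom.comp_apply, MvPolynomial.aeval_X, MvPolynomial.aeval_X, MvPolynomial.aeval_X]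
      exact DFunLike.congr_fun h2 R
    rw [hWd]
    simp only [map_mul, map_add, map_sub, map_pow, map_ofNat, MvPolynomial.aeval_X, h1, aA, bA]
  have hWz : MvPolynomial.aeval z W ≠ 0 := by
    rw [hWu C z]
    simp only [hz1, hza, hzb]
    exact mul_ne_zero hW.disc (mul_ne_zero hR (sub_ne_zero.2 hm))
  obtain ⟨z0, hz0, hrel⟩ := specialise z W hWz
  rw [hWu k z0] at hz0
  refine ⟨z0 (Sum.inr 0), z0 (Sum.inr 1), fun i n => z0 (Sum.inl (i, n)), left_ne_zero_of_mul hz0,
    fun i n hn => ?_, left_ne_zero_of_mul (right_ne_zero_of_mul hz0),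
    sub_ne_zero.1 (right_ne_zero_of_mul (right_ne_zero_of_mul hz0)), fun H hH G _ _ x y hxy => ?_⟩
  · have h1 := hrel (MvPolynomial.X (Sum.inl (i, n))) (by
      rw [MvPolynomial.aeval_X, hz1, hc1 i n hn])
    rwa [MvPolynomial.aeval_X] at h1
  · have h1 : bi X Y (mp C z (MvPolynomial.aeval GA H)) = 0 := by
      rw [hbi C z F X Y H]
      exact hH
    rw [bi_eq_zero_iff (P := Q) (m := 1) one_pos (by rw [hW.ordX]; rfl) (by rw [hW.ordY]; rfl)
      hW.eqn] at h1
    have h2 : mp C z (MvPolynomial.aeval GA H %ₘ wp aA bA) = 0 := by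
      rw [hmod C z, hza, hzb]
      exact h1
    have h3 : mp k z0 (MvPolynomial.aeval GA H %ₘ wp aA bA) = 0 := by
      ext s t
      rw [hco k z0]
      have h4 := hrel (((MvPolynomial.aeval GA H %ₘ wp aA bA).coeff s).coeff t) (by
        rw [← hco C z, h2]
        simp)
      rw [h4]
      simp
    rw [hmod k z0] at h3
    have h4 := hbi k z0 G x y H
    rw [← h4, bi_mod hxy, h3]
    simp

end Pool.Agent.K4H62.EL
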