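import Pool.Agent.K4H62.EL.Spec
import Pool.Agent.R882.HP

/-!
Curves of genus one through the general points of a variety.
-/

set_option autoImplicit false
set_option linter.overlappingInstances false
set_option linter.unusedSectionVars false
set_option maxHeartbeats 4000000
set_option synthInstance.maxHeartbeats 400000

open FF IntermediateField

namespace Pool.Agent.K4H62.EL

open Pool.Agent.W603.LV Pool.Agent.W619.PQ Pool.Agent.K4H62.IT
open Pool.Agent.W602.GT (val IsForm VarPts val_smul)
open Pool.Agent.W602.RG (HasValue PointedMaps PseudoGeomHyp)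
open Pool.Agent.R882.HY (OnVar PseudoBounded)
open Pool.Agent.W603.PV (pord pord_le exists_pord)

/-- A nonconstant map `f` from a curve of genus one with the marked point `O` to the variety with
generic point `x`, with value `p` at `O`, and an endomorphism of the curve which fixes `O` and
multiplies the degrees of functions by `d ≥ 2`. -/
structure EllMap {k : Type} [Field k] {L : Type} [Field L] [Algebra k L] {M : ℕ}
    (x : Fin (M + 1) → L) (p : Fin (M + 1) → k) (G : Type) [Field G] [Algebra k G]
    (O : Place k G) (σ : G →ₐ[k] G) (d : ℕ) (f : Fin (M + 1) → G) (i j : Fin (M + 1)) : Prop where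
  fix : ∀ g, O.ord (σ g) = O.ord g
  two : 2 ≤ d
  mult : ∀ g : G, hgt k (σ g) = d * hgt k g
  on : OnVar k x f
  value : HasValue O p f
  ne_i : f i ≠ 0
  ne_j : f j ≠ 0
  trans : Transcendental k (f i / f j)
  mem : p ∈ VarPts k x
  nz : ∀ H : MvPolynomial (Fin (M + 1)) k, IsForm H → val p H ≠ 0 → val f H ≠ 0
  wei : ∃ (a b : k) (X Y : G), Weier O a b X Y

section

variable {k G : Type*} [Field k] [Field G] [Algebra k G]

/-- values of polynomials in several variables -/
theorem ge_mv {ι : Type*} {P : Place k G} {w : ι → G} {c : ι → k}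
    (h : ∀ i, Ge P 1 (w i - algebraMap k G (c i))) (H : MvPolynomial ι k) :
    Ge P 0 (MvPolynomial.aeval w H) ∧
      Ge P 1 (MvPolynomial.aeval w H - algebraMap k G (MvPolynomial.eval c H)) := by
  induction H using MvPolynomial.induction_on with
  | C r =>
    rw [MvPolynomial.aeval_C, MvPolynomial.eval_C, sub_self]
    exact ⟨Ge.const r, Ge.zero⟩
  | add p q hp hq =>
    rw [map_add, map_add, map_add]
    refine ⟨hp.1.add hq.1, ?_⟩
    have e : MvPolynomial.aeval w p + MvPolynomial.aeval w q -
        (algebraMap k G (MvPolynomial.eval c p) + algebraMap k G (MvPolynomial.eval c q)) =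
        (MvPolynomial.aeval w p - algebraMap k G (MvPolynomial.eval c p)) +
        (MvPolynomial.aeval w q - algebraMap k G (MvPolynomial.eval c q)) := by ring
    rw [e]
    exact hp.2.add hq.2
  | mul_X p i hp =>
    rw [map_mul, map_mul, map_mul, MvPolynomial.aeval_X, MvPolynomial.eval_X]
    have hw : Ge P 0 (w i) := by
      have h3 := ((h i).mono (by omega : (0 : ℤ) ≤ 1)).add (Ge.const (P := P) (c i))
      rwa [sub_add_cancel] at h3
    refine ⟨(hp.1.mul hw).mono (by omega), ?_⟩
    have e : MvPolynomial.aeval w p * w i -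
        algebraMap k G (MvPolynomial.eval c p) * algebraMap k G (c i) =
        (MvPolynomial.aeval w p - algebraMap k G (MvPolynomial.eval c p)) * w i +
        algebraMap k G (MvPolynomial.eval c p) * (w i - algebraMap k G (c i)) := by ring
    rw [e]
    exact ((hp.2.mul hw).mono (by omega)).add
      (((Ge.const (P := P) (MvPolynomial.eval c p)).mul (h i)).mono (by omega))

end

section

variable {k : Type} [Field k] [IsAlgClosed k] [CharZero k] {C : Type} [Field C] [Algebra k C]
    {F : Type} [Field F] [Algebra C F] [Algebra k F] [IsScalarTower k C F] [CharZero C]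
    [IsAlgClosed C] [IsFF C F] {L : Type} [Field L] [Algebra k L] [Algebra L F]
    [IsScalarTower k L F] {M : ℕ} {x : Fin (M + 1) → L}

/-- **Curves of genus one through the general points.** -/
theorem exists_ell {D : Derivation C F F} (hD : D ≠ 0)
    (hno : ∀ (Q : Place C F) (f : F), f ≠ 0 → (∀ P : Place C F, vo P D ≤ P.ord f) →
      Q.ord f = vo Q D)
    (hrat : ¬ ∃ s : F, C⟮s⟯ = ⊤) {i j : Fin (M + 1)} (hj : x j ≠ 0)
    (hij : ∀ c : C, algebraMap C F c ≠ algebraMap L F (x i / x j))
    {R : MvPolynomial (Fin (M + 1)) k} (hRf : IsForm R) (hRx : val x R ≠ 0) :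
    ∃ (p : Fin (M + 1) → k) (G : Type) (_ : Field G) (_ : Algebra k G) (_ : IsFF k G)
      (O : Place k G) (σ : G →ₐ[k] G) (d : ℕ) (f : Fin (M + 1) → G),
      EllMap x p G O σ d f i j ∧ val p R ≠ 0 := by
  classical
  have hinj : Function.Injective (algebraMap L F) := (algebraMap L F).injective
  -- the form with the coordinate
  obtain ⟨R', hR'⟩ : ∃ R' : MvPolynomial (Fin (M + 1)) k, R' = R * MvPolynomial.X j := ⟨_, rfl⟩
  obtain ⟨δ, hδ⟩ := hRf
  have hR'h : R'.IsHomogeneous (δ + 1) := by
    rw [hR']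
    exact hδ.mul (MvPolynomial.isHomogeneous_X k j)
  have hvalR' : ∀ {A : Type} [Field A] [Algebra k A] (y : Fin (M + 1) → A),
      val y R' = val y R * y j := by
    intro A _ _ y
    rw [hR']
    unfold Pool.Agent.W602.GT.val
    rw [map_mul, MvPolynomial.aeval_X]
  obtain ⟨f, hf⟩ : ∃ f : Fin (M + 1) → F, ∀ i, f i = algebraMap L F (x i) := ⟨_, fun _ => rfl⟩
  have hfun : f = fun i => algebraMap L F (x i) := funext hf
  have hvalf : ∀ H : MvPolynomial (Fin (M + 1)) k, val f H = algebraMap L F (val x H) := by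
    intro H
    rw [hfun]
    unfold Pool.Agent.W602.GT.val
    exact MvPolynomial.aeval_algebraMap_apply F x H
  have hfR : val f R' ≠ 0 := by
    rw [hvalf, hvalR']
    exact (_root_.map_ne_zero _).2 (mul_ne_zero hRx hj)
  -- the place
  obtain ⟨Q, hQf, hQR⟩ : ∃ Q : Place C F, (∀ l, f l ≠ 0 → Q.ord (f l) = 0) ∧
      Q.ord (val f R') = 0 := by
    have h1 : ∀ g : F, {P : Place C F | P.ord g ≠ 0}.Finite := fun g => finite_support (k := C) g
    obtain ⟨Q, hQ⟩ := exists_place_not_mem (k := C) (K := F)
      ((Finset.univ.biUnion fun l => (h1 (f l)).toFinset) ∪ (h1 (val f R')).toFinset)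
    refine ⟨Q, fun l _ => ?_, ?_⟩
    · by_contra hcon
      apply hQ
      rw [Finset.mem_union, Finset.mem_biUnion]
      left
      exact ⟨l, Finset.mem_univ _, (h1 (f l)).mem_toFinset.2 hcon⟩
    · by_contra hcon
      apply hQ
      rw [Finset.mem_union]
      right
      exact (h1 (val f R')).mem_toFinset.2 hcon
  obtain ⟨a, b, X, Y, hW⟩ := exists_weier hD Q (hno Q) hrat
  -- the common denominator
  choose P' Q' hQ' hPQ using fun l => exists_frac hW.gen (f l)
  obtain ⟨q, hq⟩ : ∃ q : F, q = ∏ l, bi X Y (Q' l) := ⟨_, rfl⟩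
  have hq0 : q ≠ 0 := by
    rw [hq]
    exact Finset.prod_ne_zero_iff.2 fun l _ => hQ' l
  obtain ⟨g, hg⟩ : ∃ g : Fin (M + 1) → F, ∀ l, g l = q * f l := ⟨_, fun _ => rfl⟩
  have hgfun : g = fun l => q * f l := funext hg
  have hgbi : ∀ l, g l = bi X Y (P' l * ∏ m ∈ Finset.univ.erase l, Q' m) := by
    intro l
    rw [hg, hq, ← Finset.mul_prod_erase _ _ (Finset.mem_univ l), map_mul, map_prod, ← hPQ]
    ring
  have hqreg : ∀ P : Place C F, P ≠ Q → 0 ≤ P.ord q := by
    intro P hP
    have h1 := bi_reg hW (∏ l, Q' l) P hP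
    rw [map_prod, ← hq] at h1
    exact h1.resolve_left hq0
  have hqneg : Q.ord q ≤ 0 := by
    by_contra hcon
    push Not at hcon
    obtain ⟨c, hc⟩ := const_of_reg (k := C) (b := q) (fun P => by
      by_cases hP : P = Q
      · rw [hP]
        exact hcon.le
      · exact hqreg P hP)
    have hc0 : c ≠ 0 := by
      rintro rfl
      rw [map_zero] at hc
      exact hq0 hc
    rw [hc, Q.ord_const hc0] at hcon
    omega
  obtain ⟨N, hN⟩ : ∃ N : ℕ, Q.ord q = -(N : ℤ) := ⟨(-Q.ord q).toNat, by omega⟩
  have hgord : ∀ l, f l ≠ 0 → g l ≠ 0 ∧ Q.ord (g l) = -(N : ℤ) := by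
    intro l hl
    rw [hg]
    exact ⟨mul_ne_zero hq0 hl, by rw [Q.ord_mul hq0 hl, hN, hQf l hl, add_zero]⟩
  have hgat : ∀ l, AtMost Q N (g l) := by
    intro l
    refine ⟨?_, fun P hP => ?_⟩
    · by_cases hl : f l = 0
      · left
        rw [hg, hl, mul_zero]
      · exact Or.inr (hgord l hl).2.ge
    · rw [hgbi]
      exact bi_reg hW _ P hP
  choose c hc1 hc using fun l => exists_comb hW hrat N (g l) (hgat l)
  have hfj : f j ≠ 0 := by
    rw [hf]
    exact (_root_.map_ne_zero _).2 hj
  have hN1 : N ≠ 1 := by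
    intro h1
    have h2 := hgat j
    rw [h1] at h2
    obtain ⟨e, he⟩ := AtMost.eq_const (h2.mono (by norm_num)) hrat
    have h3 := hgord j hfj
    have he0 : e ≠ 0 := by
      rintro rfl
      rw [map_zero] at he
      exact h3.1 he
    rw [he, Q.ord_const he0, h1] at h3
    omega
  -- splitting off the leading coefficient
  have hsplit : ∀ {k' G : Type} [Field k'] [Field G] [Algebra k' G] {P : Place k' G} {x y : G},
      P.ord x = -2 → P.ord y = -3 → ∀ c : Fin (N + 1) → k',
      ef k' x y N ≠ 0 ∧ P.ord (ef k' x y N) = -(N : ℤ) ∧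
      Ge P 1 ((∑ n : Fin (N + 1), algebraMap k' G (c n) * ef k' x y n) / ef k' x y N -
        algebraMap k' G (c (Fin.last N))) := by
    intro k' G _ _ _ P x y hx hy c
    obtain ⟨h1, h2⟩ := ef_ord (k := k') hx hy hN1
    refine ⟨h1, h2, ?_⟩
    have h3 := ge_comb (k := k') hx hy (fun n : Fin N => c n.castSucc)
    have h4 : (∑ n : Fin (N + 1), algebraMap k' G (c n) * ef k' x y n) / ef k' x y N -
        algebraMap k' G (c (Fin.last N)) =
        (∑ n : Fin N, algebraMap k' G (c n.castSucc) * ef k' x y n) * (ef k' x y N)⁻¹ := by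
      rw [Fin.sum_univ_castSucc]
      simp only [Fin.val_castSucc, Fin.val_last]
      field_simp
      ring
    rw [h4]
    have h5 : Ge P N ((ef k' x y N)⁻¹) := by
      right
      rw [P.ord_inv, h2, neg_neg]
    exact (h3.mul h5).mono (by omega)
  obtain ⟨hu0, huN, -⟩ := hsplit hW.ordX hW.ordY (c j)
  -- the value is not a zero of `R'`
  have hvalC : val (fun l => c l (Fin.last N)) R' ≠ 0 := by
    intro h0
    have h1 := (ge_mv (P := Q) (w := fun l => g l / ef C X Y N)
      (c := fun l => c l (Fin.last N)) (fun l => by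
        have h2 := (hsplit hW.ordX hW.ordY (c l)).2.2
        rw [← hc l] at h2
        exact h2) (MvPolynomial.map (algebraMap k C) R')).2
    have h2 : MvPolynomial.eval (fun l => c l (Fin.last N)) (MvPolynomial.map (algebraMap k C) R') =
        val (fun l => c l (Fin.last N)) R' := by
      unfold Pool.Agent.W602.GT.val
      rw [MvPolynomial.eval_map, MvPolynomial.aeval_def]
    have h3 : MvPolynomial.aeval (fun l => g l / ef C X Y N) (MvPolynomial.map (algebraMap k C) R')
        = val (fun l => g l / ef C X Y N) R' := by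
      unfold Pool.Agent.W602.GT.val
      rw [MvPolynomial.aeval_map_algebraMap]
    rw [h2, h0, map_zero, sub_zero, h3] at h1
    have h4 : val (fun l => g l / ef C X Y N) R' =
        (q / ef C X Y N) ^ (δ + 1) * val f R' := by
      rw [← val_smul hR'h]
      congr 1
      funext l
      rw [hg]
      ring
    have h5 : (q / ef C X Y N) ^ (δ + 1) ≠ 0 := pow_ne_zero _ (div_ne_zero hq0 hu0)
    rw [h4] at h1
    have h6 := h1.resolve_left (mul_ne_zero h5 hfR)
    rw [Q.ord_mul h5 hfR, Q.ord_pow, Q.ord_div hq0 hu0, hN, huN, hQR] at h6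
    simp at h6
  -- a minor
  obtain ⟨n, n', hm⟩ : ∃ n n', c i n * c j n' ≠ c j n * c i n' := by
    by_contra hcon
    push Not at hcon
    obtain ⟨n', hn'⟩ : ∃ n', c j n' ≠ 0 := by
      by_contra h
      push Not at h
      apply (hgord j hfj).1
      rw [hc j]
      exact Finset.sum_eq_zero fun n _ => by rw [h n, map_zero, zero_mul]
    apply hij (c i n' / c j n')
    have h1 : ∀ n, c i n = c i n' / c j n' * c j n := by
      intro n
      have := hcon n n'
      field_simp
      linear_combination this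
    have h2 : g i = algebraMap C F (c i n' / c j n') * g j := by
      rw [hc i, hc j, Finset.mul_sum]
      refine Finset.sum_congr rfl fun n _ => ?_
      rw [h1 n, map_mul]
      ring
    rw [hg, hg, hf, hf] at h2
    have h3 : algebraMap L F (x i) = algebraMap C F (c i n' / c j n') * algebraMap L F (x j) := by
      apply mul_left_cancel₀ hq0
      rw [h2]
      ring
    rw [map_div₀ (algebraMap L F), h3, mul_div_cancel_right₀]
    exact (_root_.map_ne_zero _).2 hj
  -- specialization
  obtain ⟨a0, b0, c0, hdisc, hc01, hvalk, hm0, hspec⟩ := spec hW c hc1 hvalC hm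
  obtain ⟨G, _, _, hGFF, O, X0, Y0, hW0⟩ := exists_model a0 b0 hdisc
  obtain ⟨σ, hσ, d, hd, hhgt⟩ := exists_double hW0
  obtain ⟨f0, hf0⟩ : ∃ f0 : Fin (M + 1) → G,
    ∀ l, f0 l = ∑ n : Fin (N + 1), algebraMap k G (c0 l n) * ef k X0 Y0 n := ⟨_, fun _ => rfl⟩
  have hf0fun : f0 = fun l => ∑ n : Fin (N + 1), algebraMap k G (c0 l n) * ef k X0 Y0 n :=
    funext hf0
  have hzero : ∀ l, f0 l = 0 → ∀ n, c0 l n = 0 := by
    intro l hl
    rw [hf0] at hl
    exact comb_zero hW0.ordX hW0.ordY _ (hc01 l) hl
  obtain ⟨p, hp⟩ : ∃ p : Fin (M + 1) → k, ∀ l, p l = c0 l (Fin.last N) := ⟨_, fun _ => rfl⟩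
  have hpfun : p = fun l => c0 l (Fin.last N) := funext hp
  have hpR : val p R' ≠ 0 := by
    rw [hpfun]
    exact hvalk
  have hpj : p j ≠ 0 := by
    rw [hvalR'] at hpR
    exact right_ne_zero_of_mul hpR
  have hf0j : f0 j ≠ 0 := by
    intro h
    apply hpj
    rw [hp]
    exact hzero j h _
  have hf0i : f0 i ≠ 0 := by
    intro h
    apply hm0
    rw [hzero i h, hzero i h]
    ring
  have hforms : ∀ H : MvPolynomial (Fin (M + 1)) k, IsForm H → val x H = 0 → val f0 H = 0 := by
    rintro H ⟨e, he⟩ hH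
    rw [hf0fun]
    refine hspec H ?_ G X0 Y0 hW0.eqn
    have h1 : (fun l => ∑ n : Fin (N + 1), algebraMap C F (c l n) * ef C X Y n) =
        fun l => q * f l := by
      funext l
      rw [← hc l, hg]
    rw [h1, val_smul he, hvalf, hH, map_zero, mul_zero]
  obtain ⟨hv0, hvN, -⟩ := hsplit hW0.ordX hW0.ordY (c0 j)
  have hval : ∀ (H : MvPolynomial (Fin (M + 1)) k) {e : ℕ}, H.IsHomogeneous e →
      Ge O 1 ((ef k X0 Y0 N)⁻¹ ^ e * val f0 H - algebraMap k G (val p H)) := by
    intro H e he
    have h1 := (ge_mv (P := O) (w := fun l => f0 l / ef k X0 Y0 N) (c := p) (fun l => by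
      have h2 := (hsplit hW0.ordX hW0.ordY (c0 l)).2.2
      rw [← hf0 l, ← hp l] at h2
      exact h2) H).2
    rw [← val_smul he]
    have h3 : (fun l => (ef k X0 Y0 N)⁻¹ * f0 l) = fun l => f0 l / ef k X0 Y0 N := by
      funext l
      rw [div_eq_inv_mul]
    rw [h3]
    exact h1
  refine ⟨p, G, inferInstance, inferInstance, hGFF, O, σ, d, f0,
    ⟨hσ, hd, hhgt, ⟨⟨j, hf0j⟩, hforms⟩, ?_, hf0i, hf0j, ?_, ⟨fun h => hpj (congrFun h j), ?_⟩, ?_,
      a0, b0, X0, Y0, hW0⟩, ?_⟩
  · -- the value
    intro i1 j1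
    have h1 : algebraMap k G (p i1) * f0 j1 - algebraMap k G (p j1) * f0 i1 =
        ∑ n : Fin N, algebraMap k G (p i1 * c0 j1 n.castSucc - p j1 * c0 i1 n.castSucc) *
          ef k X0 Y0 n := by
      rw [hf0, hf0, Fin.sum_univ_castSucc, Fin.sum_univ_castSucc]
      simp only [Fin.val_castSucc, Fin.val_last]
      rw [← hp, ← hp]
      rw [mul_add, mul_add, Finset.mul_sum, Finset.mul_sum]
      have h2 : ∀ n : Fin N, algebraMap k G (p i1 * c0 j1 n.castSucc - p j1 * c0 i1 n.castSucc) *
          ef k X0 Y0 n = algebraMap k G (p i1) * (algebraMap k G (c0 j1 n.castSucc) *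
            ef k X0 Y0 n) - algebraMap k G (p j1) * (algebraMap k G (c0 i1 n.castSucc) *
            ef k X0 Y0 n) := by
        intro n
        rw [map_sub, map_mul, map_mul]
        ring
      rw [Finset.sum_congr rfl fun n _ => h2 n, Finset.sum_sub_distrib]
      ring
    rw [h1]
    rcases ge_comb (k := k) hW0.ordX hW0.ordY
      (fun n : Fin N => p i1 * c0 j1 n.castSucc - p j1 * c0 i1 n.castSucc) with h2 | h2
    · exact Or.inl h2
    · right
      have h3 := pord_le O (f := f0) hf0j
      have h4 : O.ord (f0 j) = -(N : ℤ) := by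
        have h5 := (hsplit hW0.ordX hW0.ordY (c0 j)).2.2
        rw [← hf0 j, ← hp j] at h5
        have h6 : algebraMap k G (p j) ≠ 0 := (_root_.map_ne_zero _).2 hpj
        have h7 : O.ord (f0 j / ef k X0 Y0 N) = 0 := by
          by_cases h8 : f0 j / ef k X0 Y0 N - algebraMap k G (p j) = 0
          · rw [sub_eq_zero.1 h8, O.ord_const hpj]
          · have h9 := O.ord_add_eq h6 h8 (by
              have := h5.resolve_left h8
              rw [O.ord_const hpj]
              omega)
            rw [add_sub_cancel, O.ord_const hpj] at h9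
            exact h9.2
        rw [O.ord_div hf0j hv0, hvN] at h7
        omega
      omega
  · -- not constant
    intro halg
    have h2 := IsAlgClosed.degree_eq_one_of_irreducible k (minpoly.irreducible halg.isIntegral)
    obtain ⟨e, he⟩ := minpoly.mem_range_of_degree_eq_one k _ h2
    have h3 : f0 i = algebraMap k G e * f0 j := by
      have he' : algebraMap k G e = f0 i / f0 j := he
      rw [he', div_mul_cancel₀ _ hf0j]
    have h4 : ∀ n, c0 i n - e * c0 j n = 0 := by
      refine comb_zero hW0.ordX hW0.ordY _ (fun n hn => ?_) ?_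
      · rw [hc01 i n hn, hc01 j n hn]
        ring
      · have h5 : ∀ n : Fin (N + 1), algebraMap k G (c0 i n - e * c0 j n) * ef k X0 Y0 n =
            algebraMap k G (c0 i n) * ef k X0 Y0 n -
              algebraMap k G e * (algebraMap k G (c0 j n) * ef k X0 Y0 n) := by
          intro n
          rw [map_sub, map_mul]
          ring
        rw [Finset.sum_congr rfl fun n _ => h5 n, Finset.sum_sub_distrib, ← Finset.mul_sum,
          ← hf0, ← hf0, h3, sub_self]
    apply hm0
    have h6 := h4 n
    have h7 := h4 n'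
    linear_combination c0 j n' * h6 - c0 j n * h7
  · -- on the variety
    rintro H ⟨e, he⟩ hH
    have h1 := hval H he
    rw [hforms H ⟨e, he⟩ hH, mul_zero, zero_sub] at h1
    have h2 : Ge O 1 (algebraMap k G (val p H)) := by
      have := h1.neg
      rwa [neg_neg] at this
    exact const_zero h2
  · -- nonzero values
    rintro H ⟨e, he⟩ hH h0
    apply hH
    have h1 := hval H he
    rw [h0, mul_zero, zero_sub] at h1
    have h2 : Ge O 1 (algebraMap k G (val p H)) := by
      have := h1.neg
      rwa [neg_neg] at this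
    exact const_zero h2
  · rw [hvalR'] at hpR
    exact left_ne_zero_of_mul hpR

end

end Pool.Agent.K4H62.EL
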