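import Pool.Agent.K4H62.EL.Pole

/-!
Curves with only one regular differential: the equation of Weierstrass.
-/

set_option autoImplicit false
set_option linter.overlappingInstances false
set_option linter.unusedSectionVars false
set_option maxHeartbeats 4000000
set_option synthInstance.maxHeartbeats 400000

open FF IntermediateField

namespace Pool.Agent.K4H62.EL

open Pool.Agent.W603.LV Pool.Agent.W619.PQ Pool.Agent.K4H62.IT

section

variable {k F : Type*} [Field k] [Field F] [Algebra k F]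

/-- The coordinates `X`, `Y` of an equation `Y ^ 2 = X ^ 3 + a X + b`; `Q` is the place at
infinity. -/
structure Weier (Q : Place k F) (a b : k) (X Y : F) : Prop where
  ordX : Q.ord X = -2
  ordY : Q.ord Y = -3
  regX : ∀ P : Place k F, P ≠ Q → 0 ≤ P.ord X
  regY : ∀ P : Place k F, P ≠ Q → 0 ≤ P.ord Y
  eqn : Y ^ 2 = X ^ 3 + algebraMap k F a * X + algebraMap k F b
  gen : IntermediateField.adjoin k {X, Y} = ⊤
  disc : 4 * a ^ 3 + 27 * b ^ 2 ≠ 0

/-- The only pole of `g` is `Q`, with order at most `n`. -/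
def AtMost (Q : Place k F) (n : ℤ) (g : F) : Prop := Ge Q (-n) g ∧ ∀ P : Place k F, P ≠ Q → Ge P 0 g

namespace AtMost

variable {Q : Place k F} {n m : ℤ} {g h : F}

theorem mono (hg : AtMost Q n g) (hnm : n ≤ m) : AtMost Q m g :=
  ⟨hg.1.mono (by omega), hg.2⟩

theorem add (hg : AtMost Q n g) (hh : AtMost Q n h) : AtMost Q n (g + h) :=
  ⟨hg.1.add hh.1, fun P hP => (hg.2 P hP).add (hh.2 P hP)⟩

theorem sub (hg : AtMost Q n g) (hh : AtMost Q n h) : AtMost Q n (g - h) :=
  ⟨hg.1.sub hh.1, fun P hP => (hg.2 P hP).sub (hh.2 P hP)⟩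

theorem mul (hg : AtMost Q n g) (hh : AtMost Q m h) : AtMost Q (n + m) (g * h) :=
  ⟨(hg.1.mul hh.1).mono (by omega), fun P hP => by simpa using (hg.2 P hP).mul (hh.2 P hP)⟩

theorem const (c : k) : AtMost Q 0 (algebraMap k F c) :=
  ⟨by simpa using Ge.const (P := Q) c, fun P _ => Ge.const (P := P) c⟩

theorem smul (c : k) (hg : AtMost Q n g) : AtMost Q n (algebraMap k F c * g) := by
  have h1 := (const (Q := Q) c).mul hg
  rwa [zero_add] at h1

end AtMost

variable [CharZero k] [IsFF k F] [IsAlgClosed k]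

/-- subtract the leading term -/
theorem AtMost.step {Q : Place k F} {n : ℤ} {g h : F} (hg : AtMost Q n g) (hh : AtMost Q n h)
    (hh0 : h ≠ 0) (hhn : Q.ord h = -n) : ∃ c : k, AtMost Q (n - 1) (g - algebraMap k F c * h) := by
  have h1 : Ge Q 0 (g / h) := by
    by_cases hg0 : g = 0
    · left
      rw [hg0, zero_div]
    · right
      rw [Q.ord_div hg0 hh0, hhn]
      have := hg.1.resolve_left hg0
      omega
  obtain ⟨c, hc⟩ := Pool.Agent.W603.LV.exists_const Q h1
  refine ⟨c, ?_, fun P hP => (hg.2 P hP).sub ?_⟩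
  · have h2 : g - algebraMap k F c * h = (g / h - algebraMap k F c) * h := by
      field_simp
    rw [h2]
    have h3 : Ge Q (-n) h := Or.inr hhn.ge
    exact (hc.mul h3).mono (by omega)
  · simpa using (Ge.const (P := P) c).mul (hh.2 P hP)

/-- no function of degree one -/
theorem AtMost.eq_const {Q : Place k F} {g : F} (hg : AtMost Q 1 g)
    (hrat : ¬ ∃ s : F, k⟮s⟯ = ⊤) : ∃ c : k, g = algebraMap k F c := by
  classical
  by_cases hg0 : g = 0
  · exact ⟨0, by rw [hg0, map_zero]⟩
  have h1 := hg.1.resolve_left hg0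
  by_cases h2 : Q.ord g = -1
  · exfalso
    apply hrat
    have hbt : Transcendental k g := Q.transcendental_of_ord_ne (by omega)
    obtain ⟨T, hT, hT2⟩ := poles (k := k) (K := F) hbt
    have hTP : T = {Q} := by
      ext P
      rw [hT, Finset.mem_singleton]
      constructor
      · intro h
        by_contra hne
        have := (hg.2 P hne).resolve_left hg0
        omega
      · rintro rfl
        omega
    rw [hTP, Finset.sum_singleton, h2, deg_one] at hT2
    refine ⟨g, ?_⟩
    rw [← IntermediateField.finrank_eq_one_iff_eq_top, ← hT2]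
    rfl
  · refine const_of_reg (k := k) fun P => ?_
    by_cases hP : P = Q
    · subst hP
      omega
    · exact (hg.2 P hP).resolve_left hg0

theorem finrank_of_pole {Q : Place k F} {g : F} {n : ℕ} (hn : 0 < n) (hg : Q.ord g = -(n : ℤ))
    (hreg : ∀ P : Place k F, P ≠ Q → 0 ≤ P.ord g) : Module.finrank k⟮g⟯ F = n := by
  classical
  have hbt : Transcendental k g := Q.transcendental_of_ord_ne (by omega)
  obtain ⟨T, hT, hT2⟩ := poles (k := k) (K := F) hbt
  have hTP : T = {Q} := by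
    ext P
    rw [hT, Finset.mem_singleton]
    constructor
    · intro h
      by_contra hne
      have := hreg P hne
      omega
    · rintro rfl
      omega
  rw [hTP, Finset.sum_singleton, hg, deg_one, neg_neg, Int.toNat_natCast, mul_one] at hT2
  exact hT2.symm

/-- **The equation of Weierstrass** of a curve whose regular differentials are proportional, at an
arbitrary place. -/
theorem exists_weier {D : Derivation k F F} (hD : D ≠ 0) (Q : Place k F)
    (hno : ∀ f : F, f ≠ 0 → (∀ P : Place k F, vo P D ≤ P.ord f) → Q.ord f = vo Q D)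
    (hrat : ¬ ∃ s : F, k⟮s⟯ = ⊤) : ∃ (a b : k) (X Y : F), Weier Q a b X Y := by
  classical
  obtain ⟨X0, hX0, hXQ, hXr⟩ := exists_pole hD Q hno (n := 2) le_rfl
  obtain ⟨Y0, hY0, hYQ, hYr⟩ := exists_pole hD Q hno (n := 3) (by norm_num)
  push_cast at hXQ hYQ
  have hX : AtMost Q 2 X0 := ⟨Or.inr (by omega), fun P hP => Or.inr (hXr P hP)⟩
  have hY : AtMost Q 3 Y0 := ⟨Or.inr (by omega), fun P hP => Or.inr (hYr P hP)⟩
  have e6 : AtMost Q 6 (Y0 ^ 2) := by
    have := hY.mul hY
    rw [pow_two]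
    exact this
  have f6 : AtMost Q 6 (X0 ^ 3) := by
    have := (hX.mul hX).mul hX
    have e : X0 ^ 3 = X0 * X0 * X0 := by ring
    rw [e]
    exact this
  have f5 : AtMost Q 5 (X0 * Y0) := hX.mul hY
  have f4 : AtMost Q 4 (X0 ^ 2) := by
    have := hX.mul hX
    rw [pow_two]
    exact this
  obtain ⟨c, g5⟩ := e6.step f6 (pow_ne_zero _ hX0) (by rw [Q.ord_pow, hXQ]; norm_num)
  obtain ⟨c1, g4⟩ := AtMost.step (n := 5) (g5.mono (by norm_num)) f5 (mul_ne_zero hX0 hY0)
    (by rw [Q.ord_mul hX0 hY0, hXQ, hYQ]; norm_num)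
  obtain ⟨c2, g3⟩ := AtMost.step (n := 4) (g4.mono (by norm_num)) f4 (pow_ne_zero _ hX0)
    (by rw [Q.ord_pow, hXQ]; norm_num)
  obtain ⟨c3, g2⟩ := AtMost.step (n := 3) (g3.mono (by norm_num)) hY hY0 (by rw [hYQ])
  obtain ⟨c4, g1⟩ := AtMost.step (n := 2) (g2.mono (by norm_num)) hX hX0 (by rw [hXQ])
  obtain ⟨c5, h5⟩ := AtMost.eq_const (g1.mono (by norm_num)) hrat
  have hc : c ≠ 0 := by
    rintro rfl
    rw [map_zero, zero_mul, sub_zero] at g5
    have h1 := g5.1.resolve_left (pow_ne_zero _ hY0)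
    rw [Q.ord_pow, hYQ] at h1
    norm_num at h1
  -- completing the square and the cube
  obtain ⟨d2, hd2⟩ : ∃ d2 : k, d2 = c2 + c1 ^ 2 / 4 := ⟨_, rfl⟩
  obtain ⟨d1, hd1⟩ : ∃ d1 : k, d1 = c4 + c1 * c3 / 2 := ⟨_, rfl⟩
  obtain ⟨d0, hd0⟩ : ∃ d0 : k, d0 = c5 + c3 ^ 2 / 4 := ⟨_, rfl⟩
  obtain ⟨a, ha⟩ : ∃ a : k, a = d1 * c - d2 ^ 2 / 3 := ⟨_, rfl⟩
  obtain ⟨b, hb⟩ : ∃ b : k, b = d0 * c ^ 2 - d2 ^ 3 / 27 - a * d2 / 3 := ⟨_, rfl⟩
  have hF0 : CharZero F := charZero_of_injective_algebraMap (algebraMap k F).injective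
  obtain ⟨X, hXd⟩ : ∃ X : F, X = algebraMap k F c * X0 + algebraMap k F (d2 / 3) := ⟨_, rfl⟩
  obtain ⟨Y, hYd⟩ : ∃ Y : F, Y = algebraMap k F c * Y0 -
    (algebraMap k F (c * c1 / 2) * X0 + algebraMap k F (c * c3 / 2)) := ⟨_, rfl⟩
  have heq : Y ^ 2 = X ^ 3 + algebraMap k F a * X + algebraMap k F b := by
    rw [hXd, hYd, hb, ha, hd2, hd1, hd0]
    simp only [map_sub, map_add, map_mul, map_div₀, map_pow, map_ofNat]
    linear_combination (algebraMap k F c) ^ 2 * h5
  have hcF : algebraMap k F c ≠ 0 := (_root_.map_ne_zero _).2 hc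
  have ordX1 : X ≠ 0 ∧ Q.ord X = -2 := by
    have h1 : Q.ord (algebraMap k F c * X0) = -2 := by
      rw [Q.ord_mul hcF hX0, Q.ord_const hc, hXQ]
      norm_num
    by_cases h0 : algebraMap k F (d2 / 3) = 0
    · rw [hXd, h0, add_zero]
      exact ⟨mul_ne_zero hcF hX0, h1⟩
    · have h2 := Q.ord_add_eq (mul_ne_zero hcF hX0) h0 (by
        rw [h1, Q.ord_const (fun h => h0 (by rw [h, map_zero]))]; norm_num)
      rw [hXd]
      exact ⟨h2.1, by rw [h2.2, h1]⟩
  have ordY1 : Y ≠ 0 ∧ Q.ord Y = -3 := by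
    have h1 : Q.ord (algebraMap k F c * Y0) = -3 := by
      rw [Q.ord_mul hcF hY0, Q.ord_const hc, hYQ]
      norm_num
    have h3 : AtMost Q 2 (algebraMap k F (c * c1 / 2) * X0 + algebraMap k F (c * c3 / 2)) :=
      (hX.smul _).add ((AtMost.const _).mono (by norm_num))
    by_cases h0 : algebraMap k F (c * c1 / 2) * X0 + algebraMap k F (c * c3 / 2) = 0
    · rw [hYd, h0, sub_zero]
      exact ⟨mul_ne_zero hcF hY0, h1⟩
    · have h4 := h3.1.resolve_left h0
      have h2 := Q.ord_add_eq (mul_ne_zero hcF hY0) (neg_ne_zero.2 h0) (by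
        rw [h1, Q.ord_neg]
        omega)
      rw [hYd, sub_eq_add_neg]
      exact ⟨h2.1, by rw [h2.2, h1]⟩
  have regX : ∀ P : Place k F, P ≠ Q → 0 ≤ P.ord X := by
    intro P hP
    have h1 : AtMost Q 2 X := by
      rw [hXd]
      exact (hX.smul _).add ((AtMost.const _).mono (by norm_num))
    exact (h1.2 P hP).resolve_left ordX1.1
  have regY : ∀ P : Place k F, P ≠ Q → 0 ≤ P.ord Y := by
    intro P hP
    have h1 : AtMost Q 3 Y := by
      rw [hYd]
      exact (hY.smul _).sub (((hX.smul _).add ((AtMost.const _).mono (by norm_num))).mono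
        (by norm_num))
    exact (h1.2 P hP).resolve_left ordY1.1
  have hgen : IntermediateField.adjoin k {X, Y} = ⊤ := by
    have hr2 : Module.finrank k⟮X⟯ F = 2 := finrank_of_pole (by norm_num) ordX1.2 regX
    have hr3 : Module.finrank k⟮Y⟯ F = 3 := finrank_of_pole (by norm_num) ordY1.2 regY
    have hle2 : k⟮X⟯ ≤ IntermediateField.adjoin k {X, Y} :=
      IntermediateField.adjoin.mono _ _ _ (by simp)
    have hle3 : k⟮Y⟯ ≤ IntermediateField.adjoin k {X, Y} :=
      IntermediateField.adjoin.mono _ _ _ (by simp)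
    have h2 := relfinrank_mul_finrank_top hle2
    have h3 := relfinrank_mul_finrank_top hle3
    rw [hr2] at h2
    rw [hr3] at h3
    have h4 : Module.finrank (IntermediateField.adjoin k {X, Y}) F ∣ 2 := Dvd.intro_left _ h2
    have h5 : Module.finrank (IntermediateField.adjoin k {X, Y}) F ∣ 3 := Dvd.intro_left _ h3
    have h6 := Nat.dvd_sub h5 h4
    have h7 : Module.finrank (IntermediateField.adjoin k {X, Y}) F = 1 := Nat.dvd_one.1 h6
    exact IntermediateField.finrank_eq_one_iff_eq_top.1 h7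
  refine ⟨a, b, X, Y, ordX1.2, ordY1.2, regX, regY, heq, hgen, fun hdisc => hrat ?_⟩
  -- a double root
  obtain ⟨e, he1, he2⟩ : ∃ e : k, a = -3 * e ^ 2 ∧ b = 2 * e ^ 3 := by
    by_cases ha0 : a = 0
    · refine ⟨0, by rw [ha0]; ring, ?_⟩
      rw [ha0] at hdisc
      have h1 : b ^ 2 = 0 := by
        have h2 : (27 : k) ≠ 0 := by norm_num
        apply mul_left_cancel₀ h2
        linear_combination hdisc
      rw [pow_eq_zero_iff (two_ne_zero)] at h1
      rw [h1]
      ring
    · refine ⟨-3 * b / (2 * a), ?_, ?_⟩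
      · field_simp
        linear_combination hdisc
      · field_simp
        linear_combination b * hdisc
  have hXe : X - algebraMap k F e ≠ 0 := by
    intro h
    have h1 : X = algebraMap k F e := sub_eq_zero.1 h
    by_cases he0 : e = 0
    · rw [he0, map_zero] at h1
      exact ordX1.1 h1
    · have h2 := ordX1.2
      rw [h1, Q.ord_const he0] at h2
      norm_num at h2
  obtain ⟨t, ht⟩ : ∃ t : F, t = Y / (X - algebraMap k F e) := ⟨_, rfl⟩
  have htY : Y = t * (X - algebraMap k F e) := by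
    rw [ht, div_mul_cancel₀ _ hXe]
  have htX : X = t ^ 2 - algebraMap k F (2 * e) := by
    have h1 := heq
    rw [htY, he1, he2] at h1
    simp only [map_sub, map_add, map_mul, map_pow, map_ofNat, map_neg] at h1 ⊢
    have h2 : (X - algebraMap k F e) ^ 2 ≠ 0 := pow_ne_zero _ hXe
    apply mul_left_cancel₀ h2
    linear_combination -h1
  refine ⟨t, ?_⟩
  rw [eq_top_iff, ← hgen, adjoin_le_iff]
  have htmem := mem_adjoin_simple_self k t
  have hXmem : X ∈ k⟮t⟯ := by
    rw [htX]
    exact sub_mem (pow_mem htmem 2) (k⟮t⟯.algebraMap_mem _)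
  rintro z hz
  rcases hz with rfl | rfl
  · exact hXmem
  · rw [htY]
    exact mul_mem htmem (sub_mem hXmem (k⟮t⟯.algebraMap_mem _))

end

end Pool.Agent.K4H62.EL
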